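import Pool.Agent.W_448i2_h61.TC
import Pool.Agent.W_448co_h5.Second

/-!
(I2) and the two coefficient identities (G2 S2, rows 431 and 452) for the components of `P_(≤ l)`
at the windows `i` with `l - i ≥ 3`.
-/

namespace Pool.Agent.GaussPoset.Win.I2

set_option linter.unusedSectionVars false

open Finset

universe u

variable {P : Type u} [Fintype P] [PartialOrder P] [DecidableEq P] {r i l : ℕ}

variable {ι : Type*} [DecidableEq ι] {κ : P → ι}

/-- number of sites of the component `a` -/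
noncomputable def bb (i l : ℕ) (κ : P → ι) (a : ι) : ℕ := (st i (cext l κ a)).card

/-- window series of the component `a` -/
noncomputable def VV (i l : ℕ) (κ : P → ι) (a : ι) : PowerSeries A := ZS i (cext l κ a)

lemma eps_VV (H : Gr P r) (hir : i ≤ r) (a : ι) : eps (bb i l κ a) (VV i l κ a) = 1 := by
  unfold eps VV bb
  rw [coeff_ZS, ZC_zero H hir]
  unfold dd
  rw [PowerSeries.coeff_X_pow, if_pos rfl]

lemma eps_sq (H : Gr P r) (hir : i ≤ r) (a : ι) : eps (bb i l κ a) (VV i l κ a) ^ 2 = 1 := by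
  rw [eps_VV H hir, one_pow]

lemma tot_dvd (H : Gr P r) (hir : i ≤ r) (hil : i ≤ l) (hκ : Split l κ) {n : ℕ}
    (hn : n ≤ 2 * (l - i)) :
    dd ^ (∑ a ∈ univ.image κ, bb i l κ a) ∣
      PowerSeries.coeff n (∏ a ∈ univ.image κ, VV i l κ a) :=
  dvd_prod H hir hil hκ hn

/-- total first order identity -/
theorem tot_first (H : Gr P r) (hir : i ≤ r) (hil : i ≤ l) (hκ : Split l κ) {e : ℕ} (he : 1 ≤ e)
    (hel : e ≤ 2 * (l - i))
    (h : ∀ a ∈ univ.image κ, Prof e (2 * e) (bb i l κ a) (VV i l κ a)) :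
    ∑ a ∈ univ.image κ, al e (bb i l κ a) (VV i l κ a) = 0 := by
  have h1 := sum_first (univ.image κ) he (bb i l κ) (VV i l κ) h (fun a _ => eps_sq H hir a)
    (tot_dvd H hir hil hκ hel)
  simpa only [eps_VV H hir, one_mul] using h1

/-- total second order identity at `q^(2e)` -/
theorem tot_second (H : Gr P r) (hir : i ≤ r) (hil : i ≤ l) (hκ : Split l κ) {e : ℕ} (he : 1 ≤ e)
    (hel : e ≤ l - i)
    (h : ∀ a ∈ univ.image κ, Prof e (2 * e) (bb i l κ a) (VV i l κ a)) :
    ∑ a ∈ univ.image κ, ((al e (bb i l κ a) (VV i l κ a)) ^ 2 -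
      2 * be (2 * e) (bb i l κ a) (VV i l κ a)) = 0 := by
  have h1 := sum_second (univ.image κ) he (bb i l κ) (VV i l κ) h (fun a _ => eps_sq H hir a)
    (tot_dvd H hir hil hκ (by omega)) (tot_dvd H hir hil hκ (by omega))
  simpa only [eps_VV H hir, one_mul] using h1

/-- total second order identity at `q^m`, `e < m < 2 e` -/
theorem tot_odd (H : Gr P r) (hir : i ≤ r) (hil : i ≤ l) (hκ : Split l κ) {e m : ℕ} (he : 1 ≤ e)
    (hem : e < m) (hm : m < 2 * e) (hml : m ≤ 2 * (l - i))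
    (h : ∀ a ∈ univ.image κ, Prof e m (bb i l κ a) (VV i l κ a)) :
    ∑ a ∈ univ.image κ, be m (bb i l κ a) (VV i l κ a) = 0 := by
  have h1 := sum_odd (univ.image κ) he hem hm (bb i l κ) (VV i l κ) h (fun a _ => eps_sq H hir a)
    (tot_dvd H hir hil hκ hml)
  simpa only [eps_VV H hir, one_mul] using h1

/-- the exact zero: narrow components have no second order coefficient -/
lemma be_small (H : Gr P r) (hir : i ≤ r) (hil : i ≤ l) (hκ : Split l κ) (a : ι)
    (hb : bb i l κ a ≤ 2) (m : ℕ) : be m (bb i l κ a) (VV i l κ a) = 0 := by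
  have key : 1 ≤ bb i l κ a → dd ∣ PowerSeries.coeff m (VV i l κ a) := by
    intro h
    unfold VV
    rw [coeff_ZS]
    apply dd_dvd_ZC H (part_cext H hil hκ a)
    rw [← card_pos]
    exact h
  unfold be
  rcases Nat.eq_zero_or_pos (bb i l κ a) with h | h
  · rw [h]
    apply coeff_zero_of_dvd (a := 2)
    · exact Dvd.intro _ rfl
    · omega
  · apply coeff_zero_of_dvd (a := 3)
    · rw [show (3 : ℕ) = 2 + 1 from rfl, pow_add, pow_one]
      exact mul_dvd_mul_left _ (key h)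
    · omega

lemma dd_cancel {b : ℕ} {F : A} (h : dd ^ (b + 1) ∣ dd * F) : dd ^ b ∣ F := by
  rw [pow_succ'] at h
  exact (mul_dvd_mul_iff_left (by unfold dd; exact PowerSeries.X_ne_zero)).1 h

lemma dvd_succ_of_coeff {b : ℕ} {F : A} (h : dd ^ b ∣ F) (h0 : PowerSeries.coeff b F = 0) :
    dd ^ (b + 1) ∣ F := by
  apply dvd_of_coeff
  intro k hk
  rcases Nat.lt_or_ge k b with h1 | h1
  · exact coeff_zero_of_dvd h h1
  · have : k = b := by omega
    rw [this]
    exact h0

lemma be_zero_iff {m b : ℕ} {V : PowerSeries A} (h : dd ^ b ∣ dd ^ 2 * PowerSeries.coeff m V) :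
    be m b V = 0 → dd ^ b ∣ dd * PowerSeries.coeff m V := by
  intro h0
  have h1 := dvd_succ_of_coeff h h0
  rw [pow_two, mul_assoc] at h1
  exact dd_cancel h1

lemma al_zero {e b : ℕ} {V : PowerSeries A} (h : dd ^ b ∣ dd * PowerSeries.coeff e V)
    (h0 : al e b V = 0) : dd ^ b ∣ PowerSeries.coeff e V := by
  have h1 := dvd_succ_of_coeff h h0
  exact dd_cancel h1

lemma pow_sub_dvd {b k : ℕ} {F : A} (h : dd ^ (b - k) ∣ F) : dd ^ b ∣ dd ^ k * F := by
  refine (pow_dvd_pow dd (show b ≤ k + (b - k) by omega)).trans ?_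
  rw [pow_add]
  exact mul_dvd_mul_left _ h

/-- the profile given by (I2) -/
theorem prof35 (H : Gr P r) (hir : i ≤ r) (hil : i + 2 ≤ l)
    (hg : ∀ m, i ≤ m + 1 → m ≤ i + 1 → Good P m) (hκ : Split l κ) {a : ι}
    (ha : a ∈ univ.image κ) : Prof 3 5 (bb i l κ a) (VV i l κ a) := by
  have h0 : PowerSeries.coeff 0 (VV i l κ a) = dd ^ bb i l κ a := by
    unfold VV bb
    rw [coeff_ZS, ZC_zero H hir]
  have h1 : ∀ n, 1 ≤ n → dd ^ (bb i l κ a + 1 - (n + 1) / 2) ∣ PowerSeries.coeff n (VV i l κ a) := by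
    intro n hn
    have := indiv_two H hir hil hg hκ ha hn
    unfold VV bb
    rw [coeff_ZS]
    exact this
  refine ⟨?_, ?_, ?_⟩
  · intro n hn
    rcases Nat.eq_zero_or_pos n with rfl | h
    · rw [h0]
    · have := h1 n h
      rwa [show (n + 1) / 2 = 1 by omega, Nat.add_sub_cancel] at this
  · intro n hn
    rcases Nat.eq_zero_or_pos n with rfl | h
    · rw [h0]
      exact Dvd.intro_left _ rfl
    · have h2 := (pow_dvd_pow dd (show bb i l κ a - 1 ≤ bb i l κ a + 1 - (n + 1) / 2 by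
        omega)).trans (h1 n h)
      have := pow_sub_dvd h2
      rwa [pow_one] at this
  · have h2 := (pow_dvd_pow dd (show bb i l κ a - 2 ≤ bb i l κ a + 1 - (5 + 1) / 2 by
        omega)).trans (h1 5 (by omega))
    exact pow_sub_dvd h2

/-- the profile given by (I2) and the vanishing of the coefficient (5,2) -/
theorem prof36 (H : Gr P r) (hir : i ≤ r) (hil : i + 2 ≤ l)
    (hg : ∀ m, i ≤ m + 1 → m ≤ i + 1 → Good P m) (hκ : Split l κ) {a : ι}
    (ha : a ∈ univ.image κ) (h5 : be 5 (bb i l κ a) (VV i l κ a) = 0) :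
    Prof 3 6 (bb i l κ a) (VV i l κ a) := by
  have h := prof35 H hir hil hg hκ ha
  refine ⟨h.lo, ?_, ?_⟩
  · intro n hn
    rcases Nat.lt_or_ge n 5 with h1 | h1
    · exact h.mid n h1
    · have h2 : n = 5 := by omega
      rw [h2]
      exact be_zero_iff h.top h5
  · apply pow_sub_dvd
    have := indiv_two H hir hil hg hκ ha (n := 6) (by omega)
    unfold VV bb
    rw [coeff_ZS]
    exact (pow_dvd_pow dd (by omega)).trans this

/-- (5,2) vanishes for every component if it is nowhere positive -/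
theorem be5_zero (H : Gr P r) (hir : i ≤ r) (hil : i + 3 ≤ l)
    (hg : ∀ m, i ≤ m + 1 → m ≤ i + 1 → Good P m) (hκ : Split l κ)
    (hneg : ∀ a ∈ univ.image κ, 3 ≤ bb i l κ a → be 5 (bb i l κ a) (VV i l κ a) ≤ 0) :
    ∀ a ∈ univ.image κ, be 5 (bb i l κ a) (VV i l κ a) = 0 := by
  have h1 := tot_odd H hir (by omega) hκ (e := 3) (m := 5) (by omega) (by omega) (by omega)
    (by omega) (fun a ha => prof35 H hir (by omega) hg hκ ha)
  have h2 : ∀ a ∈ univ.image κ, be 5 (bb i l κ a) (VV i l κ a) ≤ 0 := by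
    intro a ha
    rcases Nat.lt_or_ge (bb i l κ a) 3 with h | h
    · rw [be_small H hir (by omega) hκ a (by omega)]
    · exact hneg a ha h
  exact (Finset.sum_eq_zero_iff_of_nonpos h2).1 h1

/-- (3,1) and (6,2): if `2 (6,2) ≤ (3,1)^2` for every component with at least three sites then
equality holds for every component -/
theorem al3_sq (H : Gr P r) (hir : i ≤ r) (hil : i + 3 ≤ l)
    (hg : ∀ m, i ≤ m + 1 → m ≤ i + 1 → Good P m) (hκ : Split l κ)
    (h5 : ∀ a ∈ univ.image κ, be 5 (bb i l κ a) (VV i l κ a) = 0)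
    (hneg : ∀ a ∈ univ.image κ, 3 ≤ bb i l κ a →
      2 * be 6 (bb i l κ a) (VV i l κ a) ≤ (al 3 (bb i l κ a) (VV i l κ a)) ^ 2) :
    ∀ a ∈ univ.image κ,
      (al 3 (bb i l κ a) (VV i l κ a)) ^ 2 = 2 * be 6 (bb i l κ a) (VV i l κ a) := by
  have h1 := tot_second H hir (by omega) hκ (e := 3) (by omega) (by omega)
    (fun a ha => prof36 H hir (by omega) hg hκ ha (h5 a ha))
  have h2 : ∀ a ∈ univ.image κ, 0 ≤ (al 3 (bb i l κ a) (VV i l κ a)) ^ 2 -
      2 * be (2 * 3) (bb i l κ a) (VV i l κ a) := by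
    intro a ha
    rcases Nat.lt_or_ge (bb i l κ a) 3 with h | h
    · rw [be_small H hir (by omega) hκ a (by omega)]
      have := sq_nonneg (al 3 (bb i l κ a) (VV i l κ a))
      linarith
    · have := hneg a ha h
      linarith
  intro a ha
  have h3 := (Finset.sum_eq_zero_iff_of_nonneg h2).1 h1 a ha
  linarith

/-- first order coefficients (3,1) vanish individually for the components with at most two sites,
and for every component with `(6,2) ≤ 0` -/
theorem al3_zero (H : Gr P r) (hir : i ≤ r) (hil : i + 3 ≤ l)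
    (hg : ∀ m, i ≤ m + 1 → m ≤ i + 1 → Good P m) (hκ : Split l κ)
    (h5 : ∀ a ∈ univ.image κ, be 5 (bb i l κ a) (VV i l κ a) = 0)
    (hneg : ∀ a ∈ univ.image κ, 3 ≤ bb i l κ a → be 6 (bb i l κ a) (VV i l κ a) ≤ 0) :
    ∀ a ∈ univ.image κ, al 3 (bb i l κ a) (VV i l κ a) = 0 ∧
      be 6 (bb i l κ a) (VV i l κ a) = 0 ∧ dd ^ bb i l κ a ∣ ZC i (cext l κ a) 3 := by
  have h1 := al3_sq H hir hil hg hκ h5 (fun a ha hb => by
    have := hneg a ha hb
    have := sq_nonneg (al 3 (bb i l κ a) (VV i l κ a))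
    linarith)
  intro a ha
  have h2 := h1 a ha
  have h3 : be 6 (bb i l κ a) (VV i l κ a) ≤ 0 := by
    rcases Nat.lt_or_ge (bb i l κ a) 3 with h | h
    · rw [be_small H hir (by omega) hκ a (by omega)]
    · exact hneg a ha h
  have h4 := sq_nonneg (al 3 (bb i l κ a) (VV i l κ a))
  have h5' : (al 3 (bb i l κ a) (VV i l κ a)) ^ 2 = 0 := by linarith
  have h6 : al 3 (bb i l κ a) (VV i l κ a) = 0 := by
    exact pow_eq_zero_iff (two_ne_zero) |>.1 h5'
  refine ⟨h6, by linarith, ?_⟩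
  have h7 := al_zero ((prof35 H hir (by omega) hg hκ ha).mid 3 (by omega)) h6
  unfold VV at h7
  rwa [coeff_ZS] at h7

/-- the profile for (4,1), (7,2) -/
theorem prof47 (H : Gr P r) (hir : i ≤ r) (hil : i + 2 ≤ l)
    (hg : ∀ m, i ≤ m + 1 → m ≤ i + 1 → Good P m) (hκ : Split l κ) {a : ι}
    (ha : a ∈ univ.image κ) (h3 : al 3 (bb i l κ a) (VV i l κ a) = 0)
    (h5 : be 5 (bb i l κ a) (VV i l κ a) = 0) (h6 : be 6 (bb i l κ a) (VV i l κ a) = 0)
    (h7 : dd ^ bb i l κ a ∣ dd ^ 2 * PowerSeries.coeff 7 (VV i l κ a)) :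
    Prof 4 7 (bb i l κ a) (VV i l κ a) := by
  have h := prof36 H hir hil hg hκ ha h5
  refine ⟨?_, ?_, h7⟩
  · intro n hn
    rcases Nat.lt_or_ge n 3 with h1 | h1
    · exact h.lo n h1
    · have h2 : n = 3 := by omega
      rw [h2]
      exact al_zero (h.mid 3 (by omega)) h3
  · intro n hn
    rcases Nat.lt_or_ge n 6 with h1 | h1
    · exact h.mid n h1
    · have h2 : n = 6 := by omega
      rw [h2]
      exact be_zero_iff h.top h6

/-- the profile for (4,1), (8,2) -/
theorem prof48 {e : ℕ} {b : ℕ} {V : PowerSeries A} (h : Prof 4 7 b V) (h7 : be 7 b V = 0)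
    (h8 : dd ^ b ∣ dd ^ 2 * PowerSeries.coeff 8 V) : Prof 4 8 b V := by
  refine ⟨h.lo, ?_, h8⟩
  intro n hn
  rcases Nat.lt_or_ge n 7 with h1 | h1
  · exact h.mid n h1
  · have h2 : n = 7 := by omega
    rw [h2]
    exact be_zero_iff h.top h7

/-- the additional divisibilities needed by `prof47`, `prof48` hold for at most three sites -/
lemma dvd_small (H : Gr P r) (hir : i ≤ r) (hil : i ≤ l) (hκ : Split l κ) (a : ι)
    (hb : bb i l κ a ≤ 3) (m : ℕ) :
    dd ^ bb i l κ a ∣ dd ^ 2 * PowerSeries.coeff m (VV i l κ a) := by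
  rcases Nat.eq_zero_or_pos (bb i l κ a) with h | h
  · rw [h, pow_zero]
    exact one_dvd _
  · have key : dd ∣ PowerSeries.coeff m (VV i l κ a) := by
      unfold VV
      rw [coeff_ZS]
      apply dd_dvd_ZC H (part_cext H hil hκ a)
      rw [← card_pos]
      exact h
    refine (pow_dvd_pow dd (show bb i l κ a ≤ 2 + 1 by omega)).trans ?_
    rw [pow_add, pow_one]
    exact mul_dvd_mul_left _ key

end Pool.Agent.GaussPoset.Win.I2
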