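import Pool.Agent.W_448i2_h61.IG

/-!
Two coefficient version of the second power sum identity (G2 S2, row 452, (W) and (P)): helper64's
file W_448tc_h64/TwoCoeff.lean, ported to the coefficient ring `A` (power series in `dd`).

`V` is a power series in `q` whose coefficients are polynomials in `d = X`.  `Prof e m b V` says
that the coefficient of `q^n` is divisible by `d^b` for `n < e`, by `d^(b-1)` for `n < m` and by
`d^(b-2)` for `n = m` (written without subtraction).  Here `e ≤ m ≤ 2 e`.
-/

open Finset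

namespace Pool.Agent.GaussPoset.Win.I2

/-- order profile -/
structure Prof (e m b : ℕ) (V : PowerSeries A) : Prop where
  lo : ∀ n, n < e → dd ^ b ∣ PowerSeries.coeff n V
  mid : ∀ n, n < m → dd ^ b ∣ dd * PowerSeries.coeff n V
  top : dd ^ b ∣ dd ^ 2 * PowerSeries.coeff m V

/-- leading coefficient of the `q^0` part -/
noncomputable def eps (b : ℕ) (V : PowerSeries A) : ℤ := PowerSeries.coeff b (PowerSeries.coeff 0 V : A)

/-- coefficient of `q^e d^(b-1)` -/
noncomputable def al (e b : ℕ) (V : PowerSeries A) : ℤ :=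
  PowerSeries.coeff b (dd * PowerSeries.coeff e V : A)

/-- coefficient of `q^m d^(b-2)` -/
noncomputable def be (m b : ℕ) (V : PowerSeries A) : ℤ :=
  PowerSeries.coeff b (dd ^ 2 * PowerSeries.coeff m V : A)

theorem coeff_mul_of_dvd {b b' : ℕ} {p p' : A} (h : dd ^ b ∣ p) (h' : dd ^ b' ∣ p') :
    PowerSeries.coeff (b + b') (p * p') = PowerSeries.coeff b p * PowerSeries.coeff b' p' :=
  coeff_low h h'

theorem coeff_eq_zero_of_dvd {b : ℕ} {p : A} (h : dd ^ (b + 1) ∣ p) :
    PowerSeries.coeff b p = 0 := coeff_zero_of_dvd h (Nat.lt_succ_self b)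

theorem Prof.mul {e m b b' : ℕ} (hem : e ≤ m) (hm : m ≤ 2 * e) {V V' : PowerSeries A}
    (h : Prof e m b V) (h' : Prof e m b' V') (he : 1 ≤ e) : Prof e m (b + b') (V * V') := by
  refine ⟨?_, ?_, ?_⟩
  · intro n hn
    rw [PowerSeries.coeff_mul]
    refine Finset.dvd_sum ?_
    rintro ⟨i, j⟩ hij
    rw [Finset.HasAntidiagonal.mem_antidiagonal] at hij
    simp only at hij ⊢
    rw [pow_add]
    exact mul_dvd_mul (h.lo i (by omega)) (h'.lo j (by omega))
  · intro n hn
    rw [PowerSeries.coeff_mul, Finset.mul_sum]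
    refine Finset.dvd_sum ?_
    rintro ⟨i, j⟩ hij
    rw [Finset.HasAntidiagonal.mem_antidiagonal] at hij
    simp only at hij ⊢
    rw [pow_add]
    by_cases hi : i < e
    · rw [mul_left_comm]
      exact mul_dvd_mul (h.lo i hi) (h'.mid j (by omega))
    · rw [← mul_assoc]
      exact mul_dvd_mul (h.mid i (by omega)) (h'.lo j (by omega))
  · rw [PowerSeries.coeff_mul, Finset.mul_sum]
    refine Finset.dvd_sum ?_
    rintro ⟨i, j⟩ hij
    rw [Finset.HasAntidiagonal.mem_antidiagonal] at hij
    simp only at hij ⊢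
    rw [pow_add]
    by_cases hi0 : i = 0
    · have hj : j = m := by omega
      subst hi0
      subst hj
      rw [mul_left_comm]
      exact mul_dvd_mul (h.lo 0 (by omega)) h'.top
    · by_cases hj0 : j = 0
      · have hi : i = m := by omega
        subst hj0
        subst hi
        rw [← mul_assoc]
        exact mul_dvd_mul h.top (h'.lo 0 (by omega))
      · have e1 : dd ^ 2 * (PowerSeries.coeff i V * PowerSeries.coeff j V') =
            (dd * PowerSeries.coeff i V) * (dd * PowerSeries.coeff j V') := by ring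
        rw [e1]
        exact mul_dvd_mul (h.mid i (by omega)) (h'.mid j (by omega))

theorem eps_mul {e m b b' : ℕ} {V V' : PowerSeries A}
    (h : Prof e m b V) (h' : Prof e m b' V') (he : 1 ≤ e) :
    eps (b + b') (V * V') = eps b V * eps b' V' := by
  unfold eps
  rw [PowerSeries.coeff_mul 0 V V', Finset.Nat.antidiagonal_zero, Finset.sum_singleton]
  exact coeff_mul_of_dvd (h.lo 0 (by omega)) (h'.lo 0 (by omega))

theorem al_mul {e m b b' : ℕ} (hem : e < m) {V V' : PowerSeries A}
    (h : Prof e m b V) (h' : Prof e m b' V') (he : 1 ≤ e) :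
    al e (b + b') (V * V') = al e b V * eps b' V' + eps b V * al e b' V' := by
  unfold al eps
  rw [PowerSeries.coeff_mul e V V', Finset.mul_sum, map_sum]
  have hne : ((e, 0) : ℕ × ℕ) ≠ (0, e) := by
    intro h1
    have := congrArg Prod.fst h1
    simp only at this
    omega
  rw [Finset.sum_eq_add (a := ((e, 0) : ℕ × ℕ)) (b := ((0, e) : ℕ × ℕ)) hne]
  · simp only
    congr 1
    · rw [← mul_assoc]
      exact coeff_mul_of_dvd (h.mid e hem) (h'.lo 0 (by omega))
    · rw [mul_left_comm]
      exact coeff_mul_of_dvd (h.lo 0 (by omega)) (h'.mid e hem)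
  · rintro ⟨i, j⟩ hij ⟨h1, h2⟩
    rw [Finset.HasAntidiagonal.mem_antidiagonal] at hij
    simp only at hij ⊢
    have hi : i < e := by
      by_contra hc
      apply h1
      have : i = e := by omega
      rw [this]
      congr 1
      omega
    have hj : j < e := by
      by_contra hc
      apply h2
      have : j = e := by omega
      rw [this]
      congr 1
      omega
    apply coeff_eq_zero_of_dvd
    rw [pow_succ', pow_add]
    exact mul_dvd_mul_left _ (mul_dvd_mul (h.lo i hi) (h'.lo j hj))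
  · intro h1
    exact absurd (Finset.HasAntidiagonal.mem_antidiagonal.2 (by simp)) h1
  · intro h1
    exact absurd (Finset.HasAntidiagonal.mem_antidiagonal.2 (by simp)) h1

/-- the general term of `be` for `0 < i`, `0 < j`, not both equal to `e` -/
theorem be_aux {e m b b' : ℕ} (hm : m ≤ 2 * e) {V V' : PowerSeries A}
    (h : Prof e m b V) (h' : Prof e m b' V') {i j : ℕ} (hij : i + j = m) (hi : i ≠ 0)
    (hj : j ≠ 0) (hne : ¬ (i = e ∧ j = e)) :
    PowerSeries.coeff (b + b') (dd ^ 2 * (PowerSeries.coeff i V * PowerSeries.coeff j V') : A) = 0 := by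
  apply coeff_eq_zero_of_dvd
  rw [pow_succ', pow_add]
  by_cases hie : i < e
  · have e1 : dd ^ 2 * (PowerSeries.coeff i V * PowerSeries.coeff j V') =
        dd * (PowerSeries.coeff i V * (dd * PowerSeries.coeff j V')) := by ring
    rw [e1]
    exact mul_dvd_mul_left _ (mul_dvd_mul (h.lo i hie) (h'.mid j (by omega)))
  · have hje : j < e := by omega
    have e1 : dd ^ 2 * (PowerSeries.coeff i V * PowerSeries.coeff j V') =
        dd * ((dd * PowerSeries.coeff i V) * PowerSeries.coeff j V') := by ring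
    rw [e1]
    exact mul_dvd_mul_left _ (mul_dvd_mul (h.mid i (by omega)) (h'.lo j hje))

theorem be_mul {e m b b' : ℕ} (hem : e < m) (hm : m ≤ 2 * e) {V V' : PowerSeries A}
    (h : Prof e m b V) (h' : Prof e m b' V') (he : 1 ≤ e) :
    be m (b + b') (V * V') = be m b V * eps b' V' + eps b V * be m b' V' +
      (if m = 2 * e then al e b V * al e b' V' else 0) := by
  unfold be al eps
  rw [PowerSeries.coeff_mul m V V', Finset.mul_sum, map_sum]
  have hne : ((m, 0) : ℕ × ℕ) ≠ (0, m) := by
    intro h1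
    have := congrArg Prod.fst h1
    simp only at this
    omega
  by_cases hme : m = 2 * e
  · rw [if_pos hme]
    have hmem1 : ((m, 0) : ℕ × ℕ) ∈ Finset.HasAntidiagonal.antidiagonal m := Finset.HasAntidiagonal.mem_antidiagonal.2 (by simp)
    have hmem2 : ((0, m) : ℕ × ℕ) ∈ (Finset.HasAntidiagonal.antidiagonal m).erase (m, 0) :=
      Finset.mem_erase.2 ⟨hne.symm, Finset.HasAntidiagonal.mem_antidiagonal.2 (by simp)⟩
    rw [← Finset.add_sum_erase _ _ hmem1, ← Finset.add_sum_erase _ _ hmem2]
    have hrest : ∑ x ∈ ((Finset.HasAntidiagonal.antidiagonal m).erase (m, 0)).erase (0, m),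
        PowerSeries.coeff (b + b') (dd ^ 2 * (PowerSeries.coeff x.1 V * PowerSeries.coeff x.2 V') : A) =
        PowerSeries.coeff b (dd * PowerSeries.coeff e V : A) *
          PowerSeries.coeff b' (dd * PowerSeries.coeff e V' : A) := by
      rw [Finset.sum_eq_single (e, e)]
      · simp only
        have e1 : dd ^ 2 * (PowerSeries.coeff e V * PowerSeries.coeff e V') =
            (dd * PowerSeries.coeff e V) * (dd * PowerSeries.coeff e V') := by ring
        rw [e1]
        exact coeff_mul_of_dvd (h.mid e hem) (h'.mid e hem)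
      · rintro ⟨i, j⟩ hij hne2
        rw [Finset.mem_erase, Finset.mem_erase, Finset.HasAntidiagonal.mem_antidiagonal] at hij
        obtain ⟨h1, h2, h3⟩ := hij
        simp only at h3 ⊢
        apply be_aux hm h h' h3
        · intro h4
          apply h1
          rw [h4] at h3 ⊢
          congr 1
          omega
        · intro h4
          apply h2
          have h5 : i = m := by omega
          rw [h4, h5]
        · rintro ⟨h4, h5⟩
          apply hne2
          rw [h4, h5]
      · intro h1
        exfalso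
        apply h1
        rw [Finset.mem_erase, Finset.mem_erase, Finset.HasAntidiagonal.mem_antidiagonal]
        refine ⟨?_, ?_, by simp only; omega⟩
        · intro h2
          have := congrArg Prod.fst h2
          simp only at this
          omega
        · intro h2
          have := congrArg Prod.snd h2
          simp only at this
          omega
    rw [hrest]
    simp only
    have t1 : PowerSeries.coeff (b + b') (dd ^ 2 * (PowerSeries.coeff m V * PowerSeries.coeff 0 V') : A) =
        PowerSeries.coeff b (dd ^ 2 * PowerSeries.coeff m V : A) * PowerSeries.coeff b' (PowerSeries.coeff 0 V' : A) := by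
      rw [← mul_assoc]
      exact coeff_mul_of_dvd h.top (h'.lo 0 (by omega))
    have t2 : PowerSeries.coeff (b + b') (dd ^ 2 * (PowerSeries.coeff 0 V * PowerSeries.coeff m V') : A) =
        PowerSeries.coeff b (PowerSeries.coeff 0 V : A) * PowerSeries.coeff b' (dd ^ 2 * PowerSeries.coeff m V' : A) := by
      rw [mul_left_comm]
      exact coeff_mul_of_dvd (h.lo 0 (by omega)) h'.top
    rw [t1, t2]
    ring
  · rw [if_neg hme, add_zero]
    rw [Finset.sum_eq_add (a := ((m, 0) : ℕ × ℕ)) (b := ((0, m) : ℕ × ℕ)) hne]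
    · simp only
      congr 1
      · rw [← mul_assoc]
        exact coeff_mul_of_dvd h.top (h'.lo 0 (by omega))
      · rw [mul_left_comm]
        exact coeff_mul_of_dvd (h.lo 0 (by omega)) h'.top
    · rintro ⟨i, j⟩ hij ⟨h1, h2⟩
      rw [Finset.HasAntidiagonal.mem_antidiagonal] at hij
      simp only at hij ⊢
      apply be_aux hm h h' hij
      · intro h4
        apply h2
        rw [h4] at hij ⊢
        congr 1
        omega
      · intro h4
        apply h1
        have h5 : i = m := by omega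
        rw [h4, h5]
      · rintro ⟨h4, h5⟩
        omega
    · intro h1
      exact absurd (Finset.HasAntidiagonal.mem_antidiagonal.2 (by simp)) h1
    · intro h1
      exact absurd (Finset.HasAntidiagonal.mem_antidiagonal.2 (by simp)) h1

theorem prof_one {e m : ℕ} : Prof e m 0 (1 : PowerSeries A) :=
  ⟨fun n _ => by simp, fun n _ => by simp, by simp⟩

/-- the product over the components: profile, `eps`, and the two Newton identities -/
theorem prod_all {ι : Type*} (s : Finset ι) {e m : ℕ} (he : 1 ≤ e) (hem : e < m)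
    (hm : m ≤ 2 * e) (b : ι → ℕ) (V : ι → PowerSeries A)
    (h : ∀ c ∈ s, Prof e m (b c) (V c)) (h1 : ∀ c ∈ s, eps (b c) (V c) ^ 2 = 1) :
    Prof e m (∑ c ∈ s, b c) (∏ c ∈ s, V c) ∧
    eps (∑ c ∈ s, b c) (∏ c ∈ s, V c) ^ 2 = 1 ∧
    eps (∑ c ∈ s, b c) (∏ c ∈ s, V c) * al e (∑ c ∈ s, b c) (∏ c ∈ s, V c) =
      ∑ c ∈ s, eps (b c) (V c) * al e (b c) (V c) ∧
    (if m = 2 * e then
      (eps (∑ c ∈ s, b c) (∏ c ∈ s, V c) * al e (∑ c ∈ s, b c) (∏ c ∈ s, V c)) ^ 2 else 0) -
      2 * (eps (∑ c ∈ s, b c) (∏ c ∈ s, V c) * be m (∑ c ∈ s, b c) (∏ c ∈ s, V c)) =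
      ∑ c ∈ s, ((if m = 2 * e then (al e (b c) (V c)) ^ 2 else 0) -
        2 * (eps (b c) (V c) * be m (b c) (V c))) := by
  classical
  induction s using Finset.induction_on with
  | empty =>
    simp only [Finset.sum_empty, Finset.prod_empty]
    have e1 : eps 0 (1 : PowerSeries A) = 1 := by simp [eps]
    have e2 : al e 0 (1 : PowerSeries A) = 0 := by
      simp [al, PowerSeries.coeff_one, show e ≠ 0 by omega]
    have e3 : be m 0 (1 : PowerSeries A) = 0 := by
      simp [be, PowerSeries.coeff_one, show m ≠ 0 by omega]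
    refine ⟨prof_one, by rw [e1]; norm_num, by rw [e2]; simp, by rw [e2, e3]; simp⟩
  | insert a s ha ih =>
    have ih' := ih (fun c hc => h c (Finset.mem_insert_of_mem hc))
      (fun c hc => h1 c (Finset.mem_insert_of_mem hc))
    obtain ⟨i1, i2, i3, i4⟩ := ih'
    have ha1 := h a (Finset.mem_insert_self a s)
    have ha2 := h1 a (Finset.mem_insert_self a s)
    rw [Finset.sum_insert ha, Finset.prod_insert ha, Finset.sum_insert ha, Finset.sum_insert ha,
      eps_mul ha1 i1 he, al_mul hem ha1 i1 he, be_mul hem hm ha1 i1 he]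
    refine ⟨ha1.mul hem.le hm i1 he, by rw [mul_pow, ha2, i2, one_mul], ?_, ?_⟩
    · rw [← i3]
      linear_combination (eps (b a) (V a) * al e (b a) (V a)) * i2 +
        (eps (∑ c ∈ s, b c) (∏ c ∈ s, V c) * al e (∑ c ∈ s, b c) (∏ c ∈ s, V c)) * ha2
    · rw [← i4]
      by_cases hme : m = 2 * e
      · simp only [if_pos hme]
        generalize eps (∑ c ∈ s, b c) (∏ c ∈ s, V c) = E at *
        generalize al e (∑ c ∈ s, b c) (∏ c ∈ s, V c) = A at *
        generalize be m (∑ c ∈ s, b c) (∏ c ∈ s, V c) = B at *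
        generalize eps (b a) (V a) = ε at *
        generalize al e (b a) (V a) = α at *
        generalize be m (b a) (V a) = β at *
        have hE : E ^ 2 = 1 := i2
        have hε : ε ^ 2 = 1 := ha2
        have e1 : ε * E * (α * E + ε * A) = ε * α + E * A := by
          linear_combination (ε * α) * hE + (E * A) * hε
        have e2 : ε * E * (β * E + ε * B + α * A) = ε * β + E * B + (ε * α) * (E * A) := by
          linear_combination (ε * β) * hE + (E * B) * hε
        rw [e1, e2]
        linear_combination (α ^ 2) * hε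
      · simp only [if_neg hme, add_zero]
        generalize eps (∑ c ∈ s, b c) (∏ c ∈ s, V c) = E at *
        generalize be m (∑ c ∈ s, b c) (∏ c ∈ s, V c) = B at *
        generalize eps (b a) (V a) = ε at *
        generalize be m (b a) (V a) = β at *
        have hE : E ^ 2 = 1 := i2
        have hε : ε ^ 2 = 1 := ha2
        linear_combination (-2 * ε * β) * hE + (-2 * E * B) * hε

/-- first order coefficient: `∑ ε_c α_c = 0` -/
theorem sum_first {ι : Type*} (s : Finset ι) {e : ℕ} (he : 1 ≤ e) (b : ι → ℕ)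
    (V : ι → PowerSeries A) (h : ∀ c ∈ s, Prof e (2 * e) (b c) (V c))
    (h1 : ∀ c ∈ s, eps (b c) (V c) ^ 2 = 1)
    (hP : dd ^ (∑ c ∈ s, b c) ∣ PowerSeries.coeff e (∏ c ∈ s, V c)) :
    ∑ c ∈ s, eps (b c) (V c) * al e (b c) (V c) = 0 := by
  obtain ⟨_, _, i3, _⟩ := prod_all s he (by omega) le_rfl b V h h1
  rw [← i3]
  have : al e (∑ c ∈ s, b c) (∏ c ∈ s, V c) = 0 := by
    unfold al
    apply coeff_eq_zero_of_dvd
    rw [pow_succ']
    exact mul_dvd_mul_left _ hP
  rw [this, mul_zero]

/-- second power sum: `∑ (α_c² - 2 ε_c β_c) = 0` (coefficients at `q^(2e)`) -/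
theorem sum_second {ι : Type*} (s : Finset ι) {e : ℕ} (he : 1 ≤ e) (b : ι → ℕ)
    (V : ι → PowerSeries A) (h : ∀ c ∈ s, Prof e (2 * e) (b c) (V c))
    (h1 : ∀ c ∈ s, eps (b c) (V c) ^ 2 = 1)
    (hP : dd ^ (∑ c ∈ s, b c) ∣ PowerSeries.coeff e (∏ c ∈ s, V c))
    (hP2 : dd ^ (∑ c ∈ s, b c) ∣ PowerSeries.coeff (2 * e) (∏ c ∈ s, V c)) :
    ∑ c ∈ s, ((al e (b c) (V c)) ^ 2 - 2 * (eps (b c) (V c) * be (2 * e) (b c) (V c))) = 0 := by
  obtain ⟨_, _, i3, i4⟩ := prod_all s he (by omega) le_rfl b V h h1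
  simp only [if_true] at i4
  rw [← i4]
  have e1 : al e (∑ c ∈ s, b c) (∏ c ∈ s, V c) = 0 := by
    unfold al
    apply coeff_eq_zero_of_dvd
    rw [pow_succ']
    exact mul_dvd_mul_left _ hP
  have e2 : be (2 * e) (∑ c ∈ s, b c) (∏ c ∈ s, V c) = 0 := by
    unfold be
    apply coeff_eq_zero_of_dvd
    rw [pow_succ, mul_comm]
    exact mul_dvd_mul (dvd_pow_self dd (by norm_num)) hP2
  rw [e1, e2]
  ring

/-- below `2 e`: `∑ ε_c β_c = 0` for the coefficients at `q^m d^(b-2)`, `e < m < 2 e` -/
theorem sum_odd {ι : Type*} (s : Finset ι) {e m : ℕ} (he : 1 ≤ e) (hem : e < m) (hm : m < 2 * e)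
    (b : ι → ℕ) (V : ι → PowerSeries A) (h : ∀ c ∈ s, Prof e m (b c) (V c))
    (h1 : ∀ c ∈ s, eps (b c) (V c) ^ 2 = 1)
    (hP2 : dd ^ (∑ c ∈ s, b c) ∣ PowerSeries.coeff m (∏ c ∈ s, V c)) :
    ∑ c ∈ s, eps (b c) (V c) * be m (b c) (V c) = 0 := by
  obtain ⟨_, _, _, i4⟩ := prod_all s he hem hm.le b V h h1
  have hne : m ≠ 2 * e := hm.ne
  simp only [if_neg hne, zero_sub] at i4
  have e2 : be m (∑ c ∈ s, b c) (∏ c ∈ s, V c) = 0 := by
    unfold be
    apply coeff_eq_zero_of_dvd
    rw [pow_succ, mul_comm]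
    exact mul_dvd_mul (dvd_pow_self dd (by norm_num)) hP2
  rw [e2, mul_zero, mul_zero, neg_zero, Finset.sum_neg_distrib, ← Finset.mul_sum] at i4
  linarith

/-- individuality: if no component has a positive second order term then all first order terms
vanish -/
theorem individual {ι : Type*} (s : Finset ι) {e : ℕ} (he : 1 ≤ e) (b : ι → ℕ)
    (V : ι → PowerSeries A) (h : ∀ c ∈ s, Prof e (2 * e) (b c) (V c))
    (h1 : ∀ c ∈ s, eps (b c) (V c) ^ 2 = 1)
    (hP : dd ^ (∑ c ∈ s, b c) ∣ PowerSeries.coeff e (∏ c ∈ s, V c))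
    (hP2 : dd ^ (∑ c ∈ s, b c) ∣ PowerSeries.coeff (2 * e) (∏ c ∈ s, V c))
    (hneg : ∀ c ∈ s, eps (b c) (V c) * be (2 * e) (b c) (V c) ≤ 0) :
    ∀ c ∈ s, dd ^ (b c) ∣ PowerSeries.coeff e (V c) := by
  intro c hc
  have h2 := sum_second s he b V h h1 hP hP2
  have h3 : ∀ c ∈ s, 0 ≤ (al e (b c) (V c)) ^ 2 -
      2 * (eps (b c) (V c) * be (2 * e) (b c) (V c)) := by
    intro c hc
    have := hneg c hc
    nlinarith [sq_nonneg (al e (b c) (V c))]
  have h4 := (Finset.sum_eq_zero_iff_of_nonneg h3).1 h2 c hc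
  have h5 : al e (b c) (V c) = 0 := by
    have := hneg c hc
    have h6 : (al e (b c) (V c)) ^ 2 ≤ 0 := by linarith
    exact pow_eq_zero_iff (two_ne_zero) |>.1 (le_antisymm h6 (sq_nonneg _))
  have h6 := (h c hc).mid e (by omega)
  apply dvd_of_coeff
  intro d hd
  have h7 : PowerSeries.coeff (d + 1) (dd * PowerSeries.coeff e (V c) : A) =
      PowerSeries.coeff d (PowerSeries.coeff e (V c) : A) := by
    unfold dd
    exact PowerSeries.coeff_succ_X_mul d _
  rw [← h7]
  by_cases hdb : d + 1 < b c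
  · exact coeff_zero_of_dvd h6 hdb
  · have hd1 : d + 1 = b c := by omega
    unfold al at h5
    rw [hd1]
    exact h5

end Pool.Agent.GaussPoset.Win.I2
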