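import Mathlib

/-!
(I2) for Gaussian posets (MP_448cb3_co), row 431: the counting on one side of a window.
`c z` are the covers of `z` towards the window, `c' z` those away from it, `t` is the distance.
-/

namespace Pool.Agent.GaussPoset.Win.I2

set_option linter.unusedSectionVars false

open Finset

universe u

variable {P : Type u} [DecidableEq P]

/-- one side of a window -/
structure Side (c c' : P → Finset P) (t : P → ℕ) (V Sd : Finset P) : Prop where
  dual : ∀ x y, y ∈ c x ↔ x ∈ c' y
  c2 : ∀ x, (c x).card ≤ 2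
  c2' : ∀ x, (c' x).card ≤ 2
  ne : ∀ x ∈ Sd, (c x).Nonempty
  tS : ∀ x ∈ Sd, 1 ≤ t x
  tV : ∀ x ∈ V, t x = 0
  cin : ∀ x ∈ Sd, ∀ y ∈ c x, (y ∈ Sd ∨ y ∈ V) ∧ t x = t y + 1
  cout : ∀ y, (y ∈ Sd ∨ y ∈ V) → ∀ x ∈ c' y, x ∈ Sd
  good : ∀ z ∈ Sd, t z = 2 → ∀ y ∈ c z, ∀ y' ∈ c z, y ≠ y' → ∃ x, x ∈ c y ∧ x ∈ c y'

/-- `a` is killed: some element away from the window has a larger label -/
def kd (c' : P → Finset P) (e : P → ℕ) (a : P) : Prop := ∃ z ∈ c' a, e a < e z

/-- some element towards the window has a label at least as large -/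
def gu (c : P → Finset P) (e : P → ℕ) (z : P) : Prop := ∃ a ∈ c z, e z ≤ e a

/-- `z` kills an element -/
def kl (c : P → Finset P) (e : P → ℕ) (z : P) : Prop := ∃ a ∈ c z, e a < e z

/-- the elements killed by `z` -/
def kn (c : P → Finset P) (e : P → ℕ) (z : P) : Finset P := (c z).filter (fun a => e a < e z)

/-- the killers of `a` -/
def kr (c' : P → Finset P) (e : P → ℕ) (a : P) : Finset P := (c' a).filter (fun z => e a < e z)

/-- the elements killed by `z` only -/
def so (c c' : P → Finset P) (e : P → ℕ) (z : P) : Finset P :=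
  (kn c e z).filter (fun a => (kr c' e a).card = 1)

open Classical in
/-- the charge of a killer -/
noncomputable def cc (c c' : P → Finset P) (e : P → ℕ) (z : P) : ℤ :=
  (kn c e z).card + (so c c' e z).card + (if gu c e z then 2 else 0) - 2

open Classical in
/-- the surplus of an element -/
noncomputable def sur (c c' : P → Finset P) (e : P → ℕ) (z : P) : ℤ :=
  (e z : ℤ) - (if kl c e z then cc c c' e z else 0)

open Classical in
/-- free elements of the side -/
noncomputable def fr (c c' : P → Finset P) (e : P → ℕ) (Sd : Finset P) : Finset P :=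
  Sd.filter (fun z => ¬ kd c' e z ∧ ¬ gu c e z)

open Classical in
/-- killers of the side -/
noncomputable def KK (c : P → Finset P) (e : P → ℕ) (Sd : Finset P) : Finset P :=
  Sd.filter (fun z => kl c e z)

open Classical in
/-- killed elements of a set -/
noncomputable def KD (c' : P → Finset P) (e : P → ℕ) (S : Finset P) : Finset P :=
  S.filter (fun a => kd c' e a)

open Classical in
/-- bad elements: label one, next to the window, charge two -/
noncomputable def bd (c c' : P → Finset P) (e : P → ℕ) (t : P → ℕ) (Sd : Finset P) : Finset P :=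
  Sd.filter (fun z => t z = 1 ∧ e z = 1 ∧ kl c e z ∧ cc c c' e z = 2)

variable {c c' : P → Finset P} {e : P → ℕ} {t : P → ℕ} {V Sd : Finset P}

lemma mem_kn {z a : P} : a ∈ kn c e z ↔ a ∈ c z ∧ e a < e z := by unfold kn; rw [mem_filter]

lemma mem_kr {z a : P} : z ∈ kr c' e a ↔ z ∈ c' a ∧ e a < e z := by unfold kr; rw [mem_filter]

lemma mem_so {z a : P} : a ∈ so c c' e z ↔ (a ∈ c z ∧ e a < e z) ∧ (kr c' e a).card = 1 := by
  unfold so; rw [mem_filter, mem_kn]

lemma kd_iff {a : P} : kd c' e a ↔ (kr c' e a).Nonempty := by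
  unfold kd Finset.Nonempty
  simp only [mem_kr]

lemma kl_iff {z : P} : kl c e z ↔ (kn c e z).Nonempty := by
  unfold kl Finset.Nonempty
  simp only [mem_kn]

/-- a killed element of the side is a killer of all its covers towards the window -/
lemma not_gu_of_kd (adm : ∀ z ∈ Sd, ¬ (kd c' e z ∧ gu c e z)) {z : P} (hz : z ∈ Sd)
    (h : kd c' e z) : ∀ a ∈ c z, e a < e z := by
  intro a ha
  by_contra h2
  exact adm z hz ⟨h, a, ha, by omega⟩

lemma kl_of_not_gu (S : Side c c' t V Sd) {z : P} (hz : z ∈ Sd) (h : ¬ gu c e z) :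
    kl c e z := by
  obtain ⟨a, ha⟩ := S.ne z hz
  refine ⟨a, ha, ?_⟩
  by_contra h2
  exact h ⟨a, ha, by omega⟩

open Classical in
/-- the killers are the free elements, the killed ones and those with a cover which is not killed -/
lemma card_KK (S : Side c c' t V Sd) (adm : ∀ z ∈ Sd, ¬ (kd c' e z ∧ gu c e z)) :
    (KK c e Sd).card = (fr c c' e Sd).card + (KD c' e Sd).card +
      ((KK c e Sd).filter (fun z => gu c e z)).card := by
  have h1 : KK c e Sd = (fr c c' e Sd ∪ KD c' e Sd) ∪ (KK c e Sd).filter (fun z => gu c e z) := by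
    ext z
    unfold KK fr KD
    simp only [mem_filter, mem_union]
    constructor
    · rintro ⟨hz, hk⟩
      by_cases h1 : gu c e z
      · exact Or.inr ⟨⟨hz, hk⟩, h1⟩
      · by_cases h2 : kd c' e z
        · exact Or.inl (Or.inr ⟨hz, h2⟩)
        · exact Or.inl (Or.inl ⟨hz, h2, h1⟩)
    · rintro ((⟨hz, h1, h2⟩ | ⟨hz, h1⟩) | ⟨h, -⟩)
      · exact ⟨hz, kl_of_not_gu S hz h2⟩
      · refine ⟨hz, kl_of_not_gu S hz (fun h2 => adm z hz ⟨h1, h2⟩)⟩
      · exact h
  conv_lhs => rw [h1]
  rw [card_union_of_disjoint, card_union_of_disjoint]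
  · rw [disjoint_left]
    intro z hz hz'
    unfold fr at hz
    unfold KD at hz'
    rw [mem_filter] at hz hz'
    exact hz.2.1 hz'.2
  · rw [disjoint_left]
    intro z hz hz'
    rw [mem_filter] at hz'
    rw [mem_union] at hz
    unfold fr KD at hz
    rw [mem_filter, mem_filter] at hz
    rcases hz with hz | hz
    · exact hz.2.2 hz'.2
    · exact adm z hz.1 ⟨hz.2, hz'.2⟩

open Classical in
/-- double counting of the pairs (killer, killed) with a condition on the killed element -/
lemma double_count (S : Side c c' t V Sd) (q : P → Prop) :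
    ∑ a ∈ KD c' e (Sd ∪ V), (if q a then (kr c' e a).card else 0) =
      ∑ z ∈ KK c e Sd, ((kn c e z).filter q).card := by
  have h1 : ∀ z ∈ KK c e Sd, ((kn c e z).filter q).card =
      ∑ a ∈ KD c' e (Sd ∪ V), if (z ∈ kr c' e a ∧ q a) then 1 else 0 := by
    intro z hz
    rw [← Finset.card_filter]
    congr 1
    ext a
    simp only [mem_filter, mem_kn, mem_kr]
    unfold KK at hz
    rw [mem_filter] at hz
    constructor
    · rintro ⟨⟨h1, h2⟩, h3⟩
      refine ⟨?_, ⟨(S.dual z a).1 h1, h2⟩, h3⟩
      unfold KD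
      rw [mem_filter, mem_union]
      exact ⟨(S.cin z hz.1 a h1).1, z, (S.dual z a).1 h1, h2⟩
    · rintro ⟨-, ⟨h1, h2⟩, h3⟩
      exact ⟨⟨(S.dual z a).2 h1, h2⟩, h3⟩
  rw [Finset.sum_congr rfl h1, Finset.sum_comm]
  refine Finset.sum_congr rfl fun a ha => ?_
  by_cases hq : q a
  · rw [if_pos hq, ← Finset.card_filter]
    congr 1
    ext z
    simp only [mem_filter, hq, and_true]
    constructor
    · intro h
      refine ⟨?_, h⟩
      rw [mem_kr] at h
      unfold KD at ha
      rw [mem_filter, mem_union] at ha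
      unfold KK
      rw [mem_filter]
      exact ⟨S.cout a ha.1 z h.1, a, (S.dual z a).2 h.1, h.2⟩
    · exact fun h => h.2
  · simp [hq]

open Classical in
/-- twice the number of killed elements -/
lemma two_card_KD (S : Side c c' t V Sd) :
    2 * (KD c' e (Sd ∪ V)).card =
      ∑ z ∈ KK c e Sd, ((kn c e z).card + (so c c' e z).card) := by
  have h1 := double_count (e := e) S (fun _ => True)
  have h2 := double_count (e := e) S (fun a => (kr c' e a).card = 1)
  simp only [if_true, Finset.filter_true] at h1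
  rw [Finset.sum_add_distrib, ← h1]
  have h3 : ∑ z ∈ KK c e Sd, (so c c' e z).card =
      ∑ a ∈ KD c' e (Sd ∪ V), (if (kr c' e a).card = 1 then (kr c' e a).card else 0) := by
    refine Eq.trans ?_ (h2.symm.trans ?_)
    · refine Finset.sum_congr rfl fun z _ => ?_
      unfold so
      congr
    · refine Finset.sum_congr rfl fun a _ => ?_
      split_ifs <;> rfl
  rw [h3, ← Finset.sum_add_distrib, mul_comm, ← smul_eq_mul, ← Finset.sum_const]
  refine Finset.sum_congr rfl fun a ha => ?_
  unfold KD at ha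
  rw [mem_filter, kd_iff, ← Finset.card_pos] at ha
  have h4 : (kr c' e a).card ≤ 2 := (Finset.card_filter_le _ _).trans (S.c2' a)
  split_ifs with h5
  · omega
  · omega

lemma card_KD_union (S : Side c c' t V Sd) :
    (KD c' e (Sd ∪ V)).card = (KD c' e Sd).card + (KD c' e V).card := by
  classical
  unfold KD
  rw [filter_union, card_union_of_disjoint]
  rw [disjoint_left]
  intro x hx hx'
  rw [mem_filter] at hx hx'
  have := S.tS x hx.1
  have := S.tV x hx'.1
  omega

/-- the number of killed sites minus the number of free elements, as a sum of charges -/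
theorem sum_cc (S : Side c c' t V Sd) (adm : ∀ z ∈ Sd, ¬ (kd c' e z ∧ gu c e z)) :
    ∑ z ∈ KK c e Sd, cc c c' e z =
      2 * ((KD c' e V).card : ℤ) - 2 * ((fr c c' e Sd).card : ℤ) := by
  classical
  have h1 := card_KK S adm
  have h2 := two_card_KD (e := e) S
  have h3 := card_KD_union (e := e) S
  unfold cc
  rw [Finset.sum_sub_distrib, Finset.sum_add_distrib, ← Finset.sum_filter, Finset.sum_const,
    Finset.sum_const]
  have h4 : ((∑ z ∈ KK c e Sd, ((kn c e z).card + (so c c' e z).card) : ℕ) : ℤ) =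
      ∑ z ∈ KK c e Sd, (((kn c e z).card : ℤ) + ((so c c' e z).card : ℤ)) := by
    push_cast
    rfl
  rw [← h4, ← h2, h3]
  simp only [nsmul_eq_mul]
  rw [show ((#(KK c e Sd) : ℕ) : ℤ) = ((fr c c' e Sd).card + (KD c' e Sd).card +
      ((KK c e Sd).filter (fun z => gu c e z)).card : ℕ) by rw [← h1]]
  push_cast
  ring

end Pool.Agent.GaussPoset.Win.I2
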