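import Pool.Agent.W_448i2_h61.IA

/-!
(I2) for Gaussian posets (MP_448cb3_co), row 431: the inequality on one side of a window.
-/

namespace Pool.Agent.GaussPoset.Win.I2

set_option linter.unusedSectionVars false

open Finset

universe u

variable {P : Type u} [DecidableEq P]

variable {c c' : P → Finset P} {e : P → ℕ} {t : P → ℕ} {V Sd : Finset P}

/-- a killer at distance `t` has label at least `t` -/
lemma t_le_of_kl (S : Side c c' t V Sd) (adm : ∀ z ∈ Sd, ¬ (kd c' e z ∧ gu c e z)) :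
    ∀ n, ∀ z ∈ Sd, kl c e z → t z = n → n ≤ e z := by
  intro n
  induction n with
  | zero => intro z _ _ _; exact Nat.zero_le _
  | succ n ih =>
    rintro z hz ⟨a, ha, hlt⟩ hn
    obtain ⟨h1, h2⟩ := S.cin z hz a ha
    rcases h1 with h1 | h1
    · have h3 : kd c' e a := ⟨z, (S.dual z a).1 ha, hlt⟩
      have h4 : kl c e a := kl_of_not_gu S h1 (fun h => adm a h1 ⟨h3, h⟩)
      have := ih a h1 h4 (by omega)
      omega
    · have := S.tV a h1
      omega

lemma so_le (z : P) : (so c c' e z).card ≤ (kn c e z).card := card_le_card (filter_subset _ _)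

lemma kn_le (S : Side c c' t V Sd) (z : P) : (kn c e z).card ≤ 2 :=
  (card_le_card (filter_subset _ _)).trans (S.c2 z)

lemma kn_le_one (S : Side c c' t V Sd) {z : P} (h : gu c e z) : (kn c e z).card ≤ 1 := by
  obtain ⟨a, ha, hle⟩ := h
  have h1 : kn c e z ⊆ (c z).erase a := by
    intro b hb
    rw [mem_kn] at hb
    rw [mem_erase]
    refine ⟨?_, hb.1⟩
    rintro rfl
    omega
  have h2 := card_le_card h1
  rw [card_erase_of_mem ha] at h2
  have := S.c2 z
  omega

lemma cc_le_two (S : Side c c' t V Sd) (z : P) : cc c c' e z ≤ 2 := by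
  classical
  unfold cc
  have h1 := so_le (c := c) (c' := c') (e := e) z
  split_ifs with h
  · have := kn_le_one S h
    omega
  · have := kn_le (e := e) S z
    omega

/-- the structure of an element with charge two -/
lemma cc_eq_two (S : Side c c' t V Sd) {z : P} (h : cc c c' e z = 2) :
    (c z).card = 2 ∧ ∀ a ∈ c z, e a < e z → (kr c' e a).card = 1 := by
  classical
  have h1 := so_le (c := c) (c' := c') (e := e) z
  have h2 : (so c c' e z).card = (kn c e z).card ∧ (c z).card = 2 := by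
    unfold cc at h
    split_ifs at h with hg
    · have h3 := kn_le_one S hg
      refine ⟨by omega, ?_⟩
      have h4 : (kn c e z).card = 1 := by omega
      have h5 : (kn c e z).card + ((c z).filter (fun a => ¬ e a < e z)).card = (c z).card := by
        unfold kn
        exact Finset.card_filter_add_card_filter_not _
      obtain ⟨a, ha, hle⟩ := hg
      have h6 : 0 < ((c z).filter (fun a => ¬ e a < e z)).card := by
        rw [card_pos]
        exact ⟨a, mem_filter.2 ⟨ha, by omega⟩⟩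
      have := S.c2 z
      omega
    · have h3 := kn_le (e := e) S z
      have h4 : (kn c e z).card ≤ (c z).card := card_le_card (filter_subset _ _)
      have := S.c2 z
      refine ⟨by omega, by omega⟩
  refine ⟨h2.2, fun a ha hlt => ?_⟩
  have h3 : so c c' e z = kn c e z := by
    apply Finset.eq_of_subset_of_card_le
    · exact filter_subset _ _
    · omega
  have h4 : a ∈ kn c e z := mem_kn.2 ⟨ha, hlt⟩
  rw [← h3, mem_so] at h4
  exact h4.2

lemma mem_bd {z : P} : z ∈ bd c c' e t Sd ↔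
    z ∈ Sd ∧ t z = 1 ∧ e z = 1 ∧ kl c e z ∧ cc c c' e z = 2 := by
  classical
  unfold bd
  rw [mem_filter]

lemma sur_ge (S : Side c c' t V Sd) (adm : ∀ z ∈ Sd, ¬ (kd c' e z ∧ gu c e z)) {z : P}
    (hz : z ∈ Sd) : -1 ≤ sur c c' e z := by
  classical
  unfold sur
  split_ifs with h
  · have h1 := t_le_of_kl S adm (t z) z hz h rfl
    have h2 := S.tS z hz
    have h3 := cc_le_two (e := e) S z
    omega
  · omega

lemma sur_nonneg (S : Side c c' t V Sd) (adm : ∀ z ∈ Sd, ¬ (kd c' e z ∧ gu c e z)) {z : P}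
    (hz : z ∈ Sd) (hb : z ∉ bd c c' e t Sd) : 0 ≤ sur c c' e z := by
  classical
  unfold sur
  split_ifs with h
  · have h1 := t_le_of_kl S adm (t z) z hz h rfl
    have h2 := S.tS z hz
    have h3 := cc_le_two (e := e) S z
    by_contra h4
    apply hb
    rw [mem_bd]
    refine ⟨hz, by omega, by omega, h, by omega⟩
  · omega

lemma sur_pos (S : Side c c' t V Sd) (adm : ∀ z ∈ Sd, ¬ (kd c' e z ∧ gu c e z)) {z : P}
    (hz : z ∈ Sd) (h3 : 3 ≤ t z) (he : 1 ≤ e z) : 1 ≤ sur c c' e z := by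
  classical
  unfold sur
  split_ifs with h
  · have h1 := t_le_of_kl S adm (t z) z hz h rfl
    have h4 := cc_le_two (e := e) S z
    omega
  · omega

/-- a killer away from a bad element has one cover only -/
lemma single_of_bd (S : Side c c' t V Sd) (adm : ∀ z ∈ Sd, ¬ (kd c' e z ∧ gu c e z)) {y z : P}
    (hy : y ∈ bd c c' e t Sd) (hz : z ∈ c' y) (hk : kl c e z) : c z = {y} ∧ 2 ≤ e z := by
  rw [mem_bd] at hy
  obtain ⟨hyS, ty, ey, ky, cy⟩ := hy
  have hzS : z ∈ Sd := S.cout y (Or.inl hyS) z hz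
  have hyz : y ∈ c z := (S.dual z y).2 hz
  have tz : t z = 2 := by
    have := (S.cin z hzS y hyz).2
    omega
  have ez : 2 ≤ e z := t_le_of_kl S adm 2 z hzS hk tz
  refine ⟨?_, ez⟩
  have hky : kd c' e y := ⟨z, hz, by omega⟩
  rw [Finset.eq_singleton_iff_unique_mem]
  refine ⟨hyz, fun y' hy' => ?_⟩
  by_contra hne
  obtain ⟨x, hx, hx'⟩ := S.good z hzS tz y hyz y' hy' (fun h => hne h.symm)
  have ex : e x < e y := not_gu_of_kd adm hyS hky x hx
  have hy'S : y' ∈ Sd := by
    have h1 := S.cin z hzS y' hy'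
    rcases h1.1 with h | h
    · exact h
    · have := S.tV y' h
      omega
  have ey' : 1 ≤ e y' := by
    by_contra h
    have h1 : kd c' e y' := ⟨z, (S.dual z y').1 hy', by omega⟩
    have h2 := not_gu_of_kd adm hy'S h1 x hx'
    omega
  have h1 := (cc_eq_two S cy).2 x hx ex
  have h2 : y ∈ kr c' e x := mem_kr.2 ⟨(S.dual y x).1 hx, ex⟩
  have h3 : y' ∈ kr c' e x := mem_kr.2 ⟨(S.dual y' x).1 hx', by omega⟩
  rw [Finset.card_eq_one] at h1
  obtain ⟨w, hw⟩ := h1
  rw [hw, mem_singleton] at h2 h3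
  exact hne (h3.trans h2.symm)

lemma sur_away (S : Side c c' t V Sd) (adm : ∀ z ∈ Sd, ¬ (kd c' e z ∧ gu c e z)) {y z : P}
    (hy : y ∈ bd c c' e t Sd) (hz : z ∈ c' y) (he : 1 ≤ e z) : 1 ≤ sur c c' e z := by
  classical
  unfold sur
  split_ifs with h
  · obtain ⟨h1, h2⟩ := single_of_bd S adm hy hz h
    have h3 : (kn c e z).card ≤ 1 := by
      refine (card_le_card (filter_subset _ _)).trans ?_
      rw [h1, card_singleton]
    have h4 := so_le (c := c) (c' := c') (e := e) z
    have h5 : ¬ gu c e z := by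
      rintro ⟨a, ha, hle⟩
      obtain ⟨b, hb, hlt⟩ := h
      rw [h1, mem_singleton] at ha hb
      subst ha
      subst hb
      omega
    unfold cc
    rw [if_neg h5]
    omega
  · omega

/-- two bad elements with a common excited cover away from the window: their common cover is
excited -/
lemma mid_of_bd (S : Side c c' t V Sd) (adm : ∀ z ∈ Sd, ¬ (kd c' e z ∧ gu c e z)) {y y' z : P}
    (hy : y ∈ bd c c' e t Sd) (hy' : y' ∈ bd c c' e t Sd) (hne : y ≠ y') (hz : z ∈ c' y)
    (hz' : z ∈ c' y') : ∃ x ∈ V, x ∈ c y ∧ x ∈ c y' ∧ 1 ≤ e x := by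
  have hy2 := hy
  have hy2' := hy'
  rw [mem_bd] at hy hy'
  obtain ⟨hyS, ty, ey, ky, cy⟩ := hy
  obtain ⟨hyS', ty', ey', ky', cy'⟩ := hy'
  have hzS : z ∈ Sd := S.cout y (Or.inl hyS) z hz
  have hyz : y ∈ c z := (S.dual z y).2 hz
  have hyz' : y' ∈ c z := (S.dual z y').2 hz'
  have tz : t z = 2 := by
    have := (S.cin z hzS y hyz).2
    omega
  obtain ⟨x, hx, hx'⟩ := S.good z hzS tz y hyz y' hyz' hne
  have hxV : x ∈ V := by
    have h1 := S.cin y hyS x hx
    rcases h1.1 with h | h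
    · have := S.tS x h
      omega
    · exact h
  refine ⟨x, hxV, hx, hx', ?_⟩
  by_contra h
  have h1 := (cc_eq_two S cy).2 x hx (by omega)
  have h2 : y ∈ kr c' e x := mem_kr.2 ⟨(S.dual y x).1 hx, by omega⟩
  have h3 : y' ∈ kr c' e x := mem_kr.2 ⟨(S.dual y' x).1 hx', by omega⟩
  rw [Finset.card_eq_one] at h1
  obtain ⟨w, hw⟩ := h1
  rw [hw, mem_singleton] at h2 h3
  exact hne (h2.trans h3.symm)

/-- payment for the bad elements with an excited cover away from the window -/
theorem pay (S : Side c c' t V Sd) (adm : ∀ z ∈ Sd, ¬ (kd c' e z ∧ gu c e z)) {B : Finset P}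
    (hB : B ⊆ bd c c' e t Sd) (hex : ∀ y ∈ B, ∃ z ∈ c' y, 1 ≤ e z) :
    ∃ Z X : Finset P, (∀ z ∈ Z, z ∈ Sd ∧ t z = 2 ∧ 1 ≤ sur c c' e z) ∧
      (∀ x ∈ X, x ∈ V ∧ 1 ≤ e x ∧ (∃ y, y ∈ c' x) ∧ ∀ y ∈ c' x, y ∈ B) ∧
      B.card ≤ Z.card + X.card := by
  classical
  choose! f hf using hex
  set Z := B.image f with hZ
  set Z2 := Z.filter (fun z => 2 ≤ (B.filter (fun y => f y = z)).card) with hZ2
  have hzZ : ∀ z ∈ Z, ∃ y ∈ B, f y = z := fun z hz => by simpa [hZ] using hz
  have hpair : ∀ z ∈ Z2, ∃ y ∈ B, ∃ y' ∈ B, y ≠ y' ∧ f y = z ∧ f y' = z := by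
    intro z hz
    rw [hZ2, mem_filter] at hz
    have h1 : 1 < (B.filter (fun y => f y = z)).card := by omega
    rw [Finset.one_lt_card] at h1
    obtain ⟨y, hy, y', hy', hne⟩ := h1
    rw [mem_filter] at hy hy'
    exact ⟨y, hy.1, y', hy'.1, hne, hy.2, hy'.2⟩
  choose! g hg g' hg' hne hfg hfg' using hpair
  have hmid : ∀ z ∈ Z2, ∃ x ∈ V, x ∈ c (g z) ∧ x ∈ c (g' z) ∧ 1 ≤ e x := by
    intro z hz
    have h1 := (hf (g z) (hg z hz)).1
    have h2 := (hf (g' z) (hg' z hz)).1
    rw [hfg z hz] at h1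
    rw [hfg' z hz] at h2
    exact mid_of_bd S adm (hB (hg z hz)) (hB (hg' z hz)) (hne z hz) h1 h2
  choose! m hmV hm hm' hme using hmid
  have hlow : ∀ z ∈ Z2, c' (m z) = {g z, g' z} := by
    intro z hz
    symm
    apply Finset.eq_of_subset_of_card_le
    · intro y hy
      rw [mem_insert, mem_singleton] at hy
      rcases hy with rfl | rfl
      · exact (S.dual _ _).1 (hm z hz)
      · exact (S.dual _ _).1 (hm' z hz)
    · rw [Finset.card_pair (hne z hz)]
      exact S.c2' _
  have hinj : Set.InjOn m Z2 := by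
    intro z hz z' hz' h
    have h1 := hlow z hz
    rw [h, hlow z' hz'] at h1
    have h2 : g z ∈ ({g z', g' z'} : Finset P) := by
      rw [h1]
      exact mem_insert_self _ _
    rw [mem_insert, mem_singleton] at h2
    rw [← hfg z hz]
    rcases h2 with h2 | h2
    · rw [h2]
      exact hfg z' hz'
    · rw [h2]
      exact hfg' z' hz'
  refine ⟨Z, Z2.image m, ?_, ?_, ?_⟩
  · intro z hz
    obtain ⟨y, hy, rfl⟩ := hzZ z hz
    have h1 := hB hy
    have h2 := (mem_bd.1 h1)
    have h3 : f y ∈ Sd := S.cout y (Or.inl h2.1) _ (hf y hy).1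
    refine ⟨h3, ?_, sur_away S adm h1 (hf y hy).1 (hf y hy).2⟩
    have h4 := (S.cin (f y) h3 y ((S.dual _ _).2 (hf y hy).1)).2
    omega
  · intro x hx
    rw [mem_image] at hx
    obtain ⟨z, hz, rfl⟩ := hx
    have h1 := hlow z hz
    refine ⟨hmV z hz, hme z hz, ⟨g z, ?_⟩, ?_⟩
    · rw [h1]
      exact mem_insert_self _ _
    · intro y hy
      rw [h1, mem_insert, mem_singleton] at hy
      rcases hy with rfl | rfl
      · exact hg z hz
      · exact hg' z hz
  · rw [Finset.card_image_of_injOn hinj]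
    have h1 : B.card = ∑ z ∈ Z, (B.filter (fun y => f y = z)).card :=
      Finset.card_eq_sum_card_image f B
    have h2 : ∀ z ∈ Z, (B.filter (fun y => f y = z)).card ≤
        1 + (if 2 ≤ (B.filter (fun y => f y = z)).card then 1 else 0) := by
      intro z hz
      have h3 : B.filter (fun y => f y = z) ⊆ c z := by
        intro y hy
        rw [mem_filter] at hy
        have := (hf y hy.1).1
        rw [hy.2] at this
        exact (S.dual _ _).2 this
      have h4 := card_le_card h3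
      have := S.c2 z
      split_ifs <;> omega
    rw [h1]
    refine (Finset.sum_le_sum h2).trans (le_of_eq ?_)
    rw [Finset.sum_add_distrib, Finset.sum_const, smul_eq_mul, mul_one, ← Finset.card_filter]

/-- THE INEQUALITY ON ONE SIDE -/
theorem side_bound (S : Side c c' t V Sd) (adm : ∀ z ∈ Sd, ¬ (kd c' e z ∧ gu c e z))
    {B : Finset P} (hB : B ⊆ bd c c' e t Sd) (hex : ∀ y ∈ B, ∃ z ∈ c' y, 1 ≤ e z) :
    ∃ X : Finset P, (∀ x ∈ X, x ∈ V ∧ 1 ≤ e x ∧ (∃ y, y ∈ c' x) ∧ ∀ y ∈ c' x, y ∈ B) ∧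
      (∀ δ : ℤ, (δ = 0 ∨ δ = 1 ∧ ∃ z ∈ Sd, 3 ≤ t z ∧ 1 ≤ e z) →
      2 * ((KD c' e V).card : ℤ) + δ ≤ ∑ z ∈ Sd, (e z : ℤ) + 2 * ((fr c c' e Sd).card : ℤ) +
        ((bd c c' e t Sd) \ B).card + X.card) := by
  classical
  obtain ⟨Z, X, hZ, hX, hc⟩ := pay S adm hB hex
  refine ⟨X, hX, fun δ hδ => ?_⟩
  have h1 := sum_cc S adm
  have h2 : ∑ z ∈ Sd, sur c c' e z = ∑ z ∈ Sd, (e z : ℤ) - ∑ z ∈ KK c e Sd, cc c c' e z := by
    unfold sur KK
    rw [Finset.sum_sub_distrib, Finset.sum_filter]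
  have h3 : ∑ z ∈ Sd, ((if z ∈ Z then (1 : ℤ) else 0) - (if z ∈ bd c c' e t Sd then 1 else 0)) +
      δ ≤ ∑ z ∈ Sd, sur c c' e z := by
    have h4 : ∀ z ∈ Sd, ((if z ∈ Z then (1 : ℤ) else 0) -
        (if z ∈ bd c c' e t Sd then 1 else 0)) ≤ sur c c' e z := by
      intro z hz
      by_cases h5 : z ∈ Z
      · have h6 := hZ z h5
        have h7 : z ∉ bd c c' e t Sd := by
          intro h
          rw [mem_bd] at h
          omega
        rw [if_pos h5, if_neg h7]
        have := h6.2.2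
        omega
      · rw [if_neg h5]
        split_ifs with h6
        · have := sur_ge S adm hz
          omega
        · have := sur_nonneg S adm hz h6
          omega
    rcases hδ with rfl | ⟨rfl, z, hz, hz3, hze⟩
    · rw [add_zero]
      exact Finset.sum_le_sum h4
    · rw [← Finset.add_sum_erase _ _ hz, ← Finset.add_sum_erase _ (fun z => sur c c' e z) hz]
      have h5 := Finset.sum_le_sum (fun x (hx : x ∈ Sd.erase z) => h4 x (Finset.mem_of_mem_erase hx))
      have h6 := sur_pos S adm hz hz3 hze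
      have h7 : z ∉ Z := by
        intro h
        have := (hZ z h).2.1
        omega
      have h8 : z ∉ bd c c' e t Sd := by
        intro h
        rw [mem_bd] at h
        omega
      rw [if_neg h7, if_neg h8]
      linarith
  rw [Finset.sum_sub_distrib, ← Finset.sum_filter, ← Finset.sum_filter, Finset.sum_const,
    Finset.sum_const] at h3
  have h9 : Sd.filter (fun z => z ∈ Z) = Z := by
    ext z
    rw [mem_filter]
    exact ⟨fun h => h.2, fun h => ⟨(hZ z h).1, h⟩⟩
  have h10 : Sd.filter (fun z => z ∈ bd c c' e t Sd) = bd c c' e t Sd := by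
    ext z
    rw [mem_filter]
    exact ⟨fun h => h.2, fun h => ⟨(mem_bd.1 h).1, h⟩⟩
  rw [h9, h10] at h3
  simp only [nsmul_eq_mul, mul_one] at h3
  have h11 : ((bd c c' e t Sd) \ B).card + B.card = (bd c c' e t Sd).card :=
    Finset.card_sdiff_add_card_eq_card hB
  push_cast at h3
  rw [h2, h1] at h3
  have h12 : (((bd c c' e t Sd) \ B).card : ℤ) + B.card = (bd c c' e t Sd).card := by
    exact_mod_cast h11
  have h13 : (B.card : ℤ) ≤ Z.card + X.card := by exact_mod_cast hc
  linarith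

end Pool.Agent.GaussPoset.Win.I2
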