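import Pool.Agent.W_448i2_h61.IB
import Pool.Agent.W_448co_h5.PartD
import Pool.Agent.W_448win_h16.CoreC

/-!
(I2) for Gaussian posets (MP_448cb3_co), row 431: the inequality for a configuration of a window.
-/

namespace Pool.Agent.GaussPoset.Win.I2

set_option linter.unusedSectionVars false

open Finset

universe u

variable {P : Type u} [Fintype P] [PartialOrder P] [DecidableEq P] {r i : ℕ} {e : P → ℕ}

/-- the lower side -/
noncomputable def lS (P : Type u) [Fintype P] [PartialOrder P] [DecidableEq P] (i : ℕ) :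
    Finset P := univ.filter (fun x => i < lev x)

/-- the upper side -/
noncomputable def uS (P : Type u) [Fintype P] [PartialOrder P] [DecidableEq P] (i : ℕ) :
    Finset P := univ.filter (fun x => lev x < i)

lemma mem_lS {x : P} : x ∈ lS P i ↔ i < lev x := by unfold lS; simp

lemma mem_uS {x : P} : x ∈ uS P i ↔ lev x < i := by unfold uS; simp

lemma kd_dc {a : P} : kd dc e a ↔ FD e a := by
  unfold kd FD
  simp only [mem_dc]

lemma kd_uc {a : P} : kd uc e a ↔ FU e a := by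
  unfold kd FU
  simp only [mem_uc]

lemma gu_uc {a : P} : gu uc e a ↔ GU e a := by
  unfold gu GU
  simp only [mem_uc]

lemma gu_dc {a : P} : gu dc e a ↔ GD e a := by
  unfold gu GD
  simp only [mem_dc]

lemma adm_low (h : AdmL i e) : ∀ z ∈ lS P i, ¬ (kd dc e z ∧ gu uc e z) := by
  intro z hz
  rw [kd_dc, gu_uc]
  exact h z (mem_lS.1 hz)

lemma adm_up (h : AdmU i e) : ∀ z ∈ uS P i, ¬ (kd uc e z ∧ gu dc e z) := by
  intro z hz
  rw [kd_uc, gu_dc]
  exact h z (mem_uS.1 hz)

lemma KD_low : KD dc e (lv P i) = AL i e := by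
  classical
  ext v
  unfold KD AL
  rw [mem_filter, mem_filter, kd_dc]

lemma KD_up : KD uc e (lv P i) = AU i e := by
  classical
  ext v
  unfold KD AU
  rw [mem_filter, mem_filter, kd_uc]

lemma fr_low : (fr uc dc e (lS P i)).card = pL i e := by
  classical
  unfold pL
  congr 1
  ext v
  unfold fr
  simp only [mem_filter, mem_lS, mem_univ, true_and, kd_dc, gu_uc]

lemma fr_up : (fr dc uc e (uS P i)).card = pU i e := by
  classical
  unfold pU
  congr 1
  ext v
  unfold fr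
  simp only [mem_filter, mem_uS, mem_univ, true_and, kd_uc, gu_dc]

lemma side_low (H : Gr P r) (hg : Good P (i + 1)) :
    Side uc dc (fun x : P => lev x - i) (lv P i) (lS P i) where
  dual := by
    intro x y
    rw [mem_uc, mem_dc]
  c2 := uc_card_le H
  c2' := dc_card_le H
  ne := by
    intro x hx
    rw [mem_lS] at hx
    exact uc_nonempty H (by omega)
  tS := by
    intro x hx
    rw [mem_lS] at hx
    omega
  tV := by
    intro x hx
    rw [mem_lv] at hx
    omega
  cin := by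
    intro x hx y hy
    rw [mem_lS] at hx
    have := lev_uc H hy
    rw [mem_lS, mem_lv]
    omega
  cout := by
    intro y hy x hx
    rw [mem_lS, mem_lv] at hy
    have := lev_dc H hx
    rw [mem_lS]
    omega
  good := by
    intro z hz ht y hy y' hy' hne
    classical
    rw [mem_lS] at hz
    have h1 := lev_uc H hy
    have h2 := lev_uc H hy'
    have h3 := hg y y' (by omega) (by omega) hne
    rw [mem_uc] at hy hy'
    have h4 : 0 < dcv y y' := by
      unfold dcv
      rw [card_pos]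
      exact ⟨z, by simp [hy, hy']⟩
    rw [← h3] at h4
    unfold ucv at h4
    rw [card_pos] at h4
    obtain ⟨x, hx⟩ := h4
    rw [mem_filter] at hx
    exact ⟨x, mem_uc.2 hx.2.1, mem_uc.2 hx.2.2⟩

lemma side_up (H : Gr P r) (hir : i ≤ r) (hg : ∀ m, m + 1 = i → Good P m) :
    Side dc uc (fun x : P => i - lev x) (lv P i) (uS P i) where
  dual := by
    intro x y
    rw [mem_uc, mem_dc]
  c2 := dc_card_le H
  c2' := uc_card_le H
  ne := by
    intro x hx
    rw [mem_uS] at hx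
    exact dc_nonempty H (by omega)
  tS := by
    intro x hx
    rw [mem_uS] at hx
    omega
  tV := by
    intro x hx
    rw [mem_lv] at hx
    omega
  cin := by
    intro x hx y hy
    rw [mem_uS] at hx
    have := lev_dc H hy
    rw [mem_uS, mem_lv]
    omega
  cout := by
    intro y hy x hx
    rw [mem_uS, mem_lv] at hy
    have := lev_uc H hx
    rw [mem_uS]
    omega
  good := by
    intro z hz ht y hy y' hy' hne
    classical
    rw [mem_uS] at hz
    have h1 := lev_dc H hy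
    have h2 := lev_dc H hy'
    have h3 := hg (lev y) (by omega) y y' rfl (by omega) hne
    rw [mem_dc] at hy hy'
    have h4 : 0 < ucv y y' := by
      unfold ucv
      rw [card_pos]
      exact ⟨z, by simp [hy, hy']⟩
    rw [h3] at h4
    unfold dcv at h4
    rw [card_pos] at h4
    obtain ⟨x, hx⟩ := h4
    rw [mem_filter] at hx
    exact ⟨x, mem_dc.2 hx.2.1, mem_dc.2 hx.2.2⟩

/-- the edge of `y` is simple in the configuration `e` -/
structure Smp (psi : P → P) (e : P → ℕ) (y : P) : Prop where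
  one : (e y = 1 ∧ e (psi y) = 0) ∨ (e y = 0 ∧ e (psi y) = 1)
  lo : ∀ z ∈ dc y, e z = 0
  up : ∀ u ∈ uc (psi y), e u = 0
  ex : ∃ x ∈ uc y, e x = 0
  lo' : ∀ x ∈ uc y, e x = 0 → ∀ z ∈ dc x, z ≠ y → e z = 0
  up' : ∀ x ∈ uc y, e x = 0 → ∀ u ∈ uc x, u ≠ psi y → e u = 0

open Classical in
/-- the simple edges -/
noncomputable def SS (i : ℕ) (psi : P → P) (e : P → ℕ) : Finset P :=
  (dbL P i).filter (fun y => Smp psi e y)

lemma mem_SS {psi : P → P} {y : P} : y ∈ SS i psi e ↔ y ∈ dbL P i ∧ Smp psi e y := by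
  classical
  unfold SS
  rw [mem_filter]

lemma mem_dbL' {y : P} : y ∈ dbL P i ↔ lev y = i + 1 ∧ (uc y).card = 2 := by
  classical
  unfold dbL
  simp

lemma mem_dbU' {y : P} : y ∈ dbU P i ↔ lev y + 1 = i ∧ (dc y).card = 2 := by
  classical
  unfold dbU
  simp

section mat

variable {psi : P → P} (hM : Mat P i ∅ psi)
include hM

lemma psi_low {y : P} (hy : y ∈ dbL P i) :
    psi y ∈ dbU P i ∧ dc (psi y) = uc y ∧ psi (psi y) = y := by
  have h1 := hM.low y hy (Finset.notMem_empty _)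
  have h2 := hM.invol y (mem_union_left _ hy) (Finset.notMem_empty _)
  exact ⟨h1.1, h1.2, h2.1⟩

lemma psi_up {w : P} (hw : w ∈ dbU P i) :
    psi w ∈ dbL P i ∧ uc (psi w) = dc w ∧ psi (psi w) = w := by
  have h1 := hM.upp w hw (Finset.notMem_empty _)
  have h2 := hM.invol w (mem_union_right _ hw) (Finset.notMem_empty _)
  exact ⟨h1.1, h1.2, h2.1⟩

/-- a bad lower element without excited lower covers is simple -/
lemma low_simple (H : Gr P r) (hg : Good P (i + 1)) (hU : AdmU i e)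
    (hd : Disjoint (AL i e) (AU i e)) {y : P}
    (hy : y ∈ bd uc dc e (fun x : P => lev x - i) (lS P i)) (h0 : ∀ z ∈ dc y, e z = 0) :
    y ∈ SS i psi e ∧ e y = 1 := by
  have S := side_low (i := i) H hg
  rw [mem_bd, mem_lS] at hy
  obtain ⟨hyS, ty, ey, ⟨a, ha, hlt⟩, cy⟩ := hy
  obtain ⟨c1, c3⟩ := cc_eq_two S cy
  have hdb : y ∈ dbL P i := mem_dbL'.2 ⟨by omega, c1⟩
  obtain ⟨h1, h2, h3⟩ := psi_low hM hdb
  have key : ∀ x ∈ uc y, e x = 0 → ∀ u ∈ uc x, e u = 0 := by
    intro x hx hx0 u hu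
    by_contra hne
    have hlx := lev_uc H hx
    have h4 : x ∈ AL i e := by
      rw [NormD_mem_AL]
      exact ⟨by omega, y, mem_uc.1 hx, by omega⟩
    have h5 : x ∈ AU i e := by
      rw [NormD_mem_AU]
      exact ⟨by omega, u, mem_uc.1 hu, by omega⟩
    exact disjoint_left.1 hd h4 h5
  have ha0 : e a = 0 := by omega
  have hau : psi y ∈ uc a := by
    rw [mem_uc, ← mem_dc, h2]
    exact ha
  have hp0 : e (psi y) = 0 := key a ha ha0 _ hau
  refine ⟨mem_SS.2 ⟨hdb, Or.inl ⟨ey, hp0⟩, h0, ?_, ⟨a, ha, ha0⟩, ?_, ?_⟩, ey⟩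
  · intro u hu
    by_contra hne
    rw [mem_dbU'] at h1
    refine hU (psi y) (by omega) ⟨⟨u, mem_uc.1 hu, by omega⟩, ⟨a, ?_, by omega⟩⟩
    rw [← mem_dc, h2]
    exact ha
  · intro x hx hx0 z hz hzy
    by_contra hne
    have h4 := c3 x hx (by omega)
    rw [Finset.card_eq_one] at h4
    obtain ⟨b, hb⟩ := h4
    have h5 : y ∈ kr dc e x := mem_kr.2 ⟨mem_dc.2 (mem_uc.1 hx), by omega⟩
    have h6 : z ∈ kr dc e x := mem_kr.2 ⟨hz, by omega⟩
    rw [hb, mem_singleton] at h5 h6
    exact hzy (h6.trans h5.symm)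
  · intro x hx hx0 u hu _
    exact key x hx hx0 u hu

/-- a bad upper element without excited upper covers is simple -/
lemma up_simple (H : Gr P r) (hir : i ≤ r) (hg : ∀ m, m + 1 = i → Good P m) (hL : AdmL i e)
    (hd : Disjoint (AL i e) (AU i e)) {w : P}
    (hw : w ∈ bd dc uc e (fun x : P => i - lev x) (uS P i)) (h0 : ∀ z ∈ uc w, e z = 0) :
    w ∈ dbU P i ∧ psi w ∈ SS i psi e ∧ e (psi w) = 0 := by
  have S := side_up H hir hg
  rw [mem_bd, mem_uS] at hw
  obtain ⟨hwS, tw, ew, ⟨a, ha, hlt⟩, cw⟩ := hw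
  obtain ⟨c1, c3⟩ := cc_eq_two S cw
  have hdb : w ∈ dbU P i := mem_dbU'.2 ⟨by omega, c1⟩
  obtain ⟨h1, h2, h3⟩ := psi_up hM hdb
  have key : ∀ x ∈ dc w, e x = 0 → ∀ u ∈ dc x, e u = 0 := by
    intro x hx hx0 u hu
    by_contra hne
    have hlx := lev_dc H hx
    have h4 : x ∈ AU i e := by
      rw [NormD_mem_AU]
      exact ⟨by omega, w, mem_dc.1 hx, by omega⟩
    have h5 : x ∈ AL i e := by
      rw [NormD_mem_AL]
      exact ⟨by omega, u, mem_dc.1 hu, by omega⟩
    exact disjoint_left.1 hd h5 h4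
  have ha0 : e a = 0 := by omega
  have hau : psi w ∈ dc a := by
    rw [mem_dc, ← mem_uc, h2]
    exact ha
  have hp0 : e (psi w) = 0 := key a ha ha0 _ hau
  refine ⟨hdb, mem_SS.2 ⟨h1, Or.inr ⟨hp0, by rw [h3]; exact ew⟩, ?_, ?_, ?_, ?_, ?_⟩, hp0⟩
  · intro u hu
    by_contra hne
    rw [mem_dbL'] at h1
    refine hL (psi w) (by omega) ⟨⟨u, mem_dc.1 hu, by omega⟩, ⟨a, ?_, by omega⟩⟩
    rw [← mem_uc, h2]
    exact ha
  · rw [h3]
    exact h0
  · rw [h2]
    exact ⟨a, ha, ha0⟩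
  · rw [h2]
    intro x hx hx0 u hu _
    exact key x hx hx0 u hu
  · rw [h2, h3]
    intro x hx hx0 z hz hzy
    by_contra hne
    have h4 := c3 x hx (by omega)
    rw [Finset.card_eq_one] at h4
    obtain ⟨b, hb⟩ := h4
    have h5 : w ∈ kr uc e x := mem_kr.2 ⟨mem_uc.2 (mem_dc.1 hx), by omega⟩
    have h6 : z ∈ kr uc e x := mem_kr.2 ⟨hz, by omega⟩
    rw [hb, mem_singleton] at h5 h6
    exact hzy (h6.trans h5.symm)

/-- THE INEQUALITY FOR A CONFIGURATION -/
theorem main_ineq (H : Gr P r) (hir : i ≤ r) (hg : ∀ m, i ≤ m + 1 → m ≤ i + 1 → Good P m)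
    (hL : AdmL i e) (hU : AdmU i e) (hd : Disjoint (AL i e) (AU i e)) {δ : ℕ}
    (hδ : δ = 0 ∨ δ = 1 ∧ ∃ z : P, (i + 3 ≤ lev z ∨ lev z + 3 ≤ i) ∧ 1 ≤ e z) :
    2 * ((AL i e).card + (AU i e).card) + δ ≤
      ∑ x, e x + 2 * (pL i e + pU i e) + (SS i psi e).card := by
  classical
  have SL := side_low (i := i) H (hg (i + 1) (by omega) (by omega))
  have SU := side_up H hir (fun m hm => hg m (by omega) (by omega))
  set bL := bd uc dc e (fun x : P => lev x - i) (lS P i) with hbL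
  set bU := bd dc uc e (fun x : P => i - lev x) (uS P i) with hbU
  obtain ⟨BL, hBL⟩ : ∃ BL : Finset P, ∀ y, y ∈ BL ↔ y ∈ bL ∧ ∃ z ∈ dc y, 1 ≤ e z :=
    ⟨bL.filter (fun y => ∃ z ∈ dc y, 1 ≤ e z), fun y => mem_filter⟩
  obtain ⟨BU, hBU⟩ : ∃ BU : Finset P, ∀ y, y ∈ BU ↔ y ∈ bU ∧ ∃ z ∈ uc y, 1 ≤ e z :=
    ⟨bU.filter (fun y => ∃ z ∈ uc y, 1 ≤ e z), fun y => mem_filter⟩
  obtain ⟨XL, hXL, iL⟩ := side_bound SL (adm_low hL) (B := BL) (fun y hy => ((hBL y).1 hy).1)
    (fun y hy => ((hBL y).1 hy).2)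
  obtain ⟨XU, hXU, iU⟩ := side_bound SU (adm_up hU) (B := BU) (fun y hy => ((hBU y).1 hy).1)
    (fun y hy => ((hBU y).1 hy).2)
  rw [KD_low, fr_low, ← hbL] at iL
  rw [KD_up, fr_up, ← hbU] at iU
  -- simple edges
  have h1 : (bL \ BL).card ≤ ((SS i psi e).filter (fun y => e y = 1)).card := by
    apply card_le_card
    intro y hy
    rw [mem_sdiff, hBL] at hy
    have h0 : ∀ z ∈ dc y, e z = 0 := by
      intro z hz
      by_contra hne
      exact hy.2 ⟨hy.1, z, hz, by omega⟩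
    rw [mem_filter]
    exact low_simple hM H (hg (i + 1) (by omega) (by omega)) hU hd hy.1 h0
  have h2 : (bU \ BU).card ≤ ((SS i psi e).filter (fun y => ¬ e y = 1)).card := by
    have h0 : ∀ w ∈ bU \ BU, w ∈ dbU P i ∧ psi w ∈ SS i psi e ∧ e (psi w) = 0 := by
      intro w hw
      rw [mem_sdiff, hBU] at hw
      have h0 : ∀ z ∈ uc w, e z = 0 := by
        intro z hz
        by_contra hne
        exact hw.2 ⟨hw.1, z, hz, by omega⟩
      exact up_simple hM H hir (fun m hm => hg m (by omega) (by omega)) hL hd hw.1 h0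
    refine card_le_card_of_injOn psi ?_ ?_
    · intro w hw
      have := h0 w hw
      rw [mem_coe, mem_filter]
      exact ⟨this.2.1, by omega⟩
    · intro w hw w' hw' heq
      have h3 := (psi_up hM (h0 w hw).1).2.2
      have h4 := (psi_up hM (h0 w' hw').1).2.2
      rw [← h3, ← h4, heq]
  have h3 : ((SS i psi e).filter (fun y => e y = 1)).card +
      ((SS i psi e).filter (fun y => ¬ e y = 1)).card = (SS i psi e).card :=
    Finset.card_filter_add_card_filter_not _
  -- sites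
  have hdX : Disjoint XL XU := by
    rw [disjoint_left]
    intro x hx hx'
    obtain ⟨-, ex, -, hxL⟩ := hXL x hx
    obtain ⟨-, -, ⟨w, hw⟩, hxU⟩ := hXU x hx'
    have hwU := mem_bd.1 ((hBU _).1 (hxU w hw)).1
    obtain ⟨hwS, tw, ew, ⟨v, hv, hlt⟩, cw⟩ := hwU
    rw [mem_uS] at hwS
    have hwdb : w ∈ dbU P i := mem_dbU'.2 ⟨by omega, (cc_eq_two SU cw).1⟩
    obtain ⟨q1, q2, q3⟩ := psi_up hM hwdb
    have hxy : psi w ∈ dc x := by
      rw [mem_dc, ← mem_uc, q2, mem_dc]
      exact mem_uc.1 hw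
    have hyL := mem_bd.1 ((hBL _).1 (hxL _ hxy)).1
    have hlv := lev_dc H hv
    have h4 : v ∈ AL i e := by
      rw [NormD_mem_AL]
      refine ⟨by omega, psi w, ?_, ?_⟩
      · rw [← mem_uc, q2]
        exact hv
      · have := hyL.2.2.1
        omega
    have h5 : v ∈ AU i e := by
      rw [NormD_mem_AU]
      exact ⟨by omega, w, mem_dc.1 hv, hlt⟩
    exact disjoint_left.1 hd h4 h5
  have h4 : XL.card + XU.card ≤ ∑ x ∈ lv P i, e x := by
    rw [← card_union_of_disjoint hdX, Finset.card_eq_sum_ones]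
    refine le_trans (Finset.sum_le_sum (g := fun x => e x) ?_) ?_
    · intro x hx
      rcases mem_union.1 hx with h | h
      · exact (hXL x h).2.1
      · exact (hXU x h).2.1
    · apply Finset.sum_le_sum_of_subset
      intro x hx
      rcases mem_union.1 hx with h | h
      · exact (hXL x h).1
      · exact (hXU x h).1
  have h5 : ∑ x, e x = ∑ x ∈ lS P i, e x + ∑ x ∈ uS P i, e x + ∑ x ∈ lv P i, e x := by
    have h6 : (univ : Finset P) = (lS P i ∪ uS P i) ∪ lv P i := by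
      ext x
      simp only [mem_univ, mem_union, mem_lS, mem_uS, mem_lv, true_iff]
      omega
    rw [h6, Finset.sum_union, Finset.sum_union]
    · rw [disjoint_left]
      intro x hx hx'
      rw [mem_lS] at hx
      rw [mem_uS] at hx'
      omega
    · rw [disjoint_left]
      intro x hx hx'
      rw [mem_union, mem_lS, mem_uS] at hx
      rw [mem_lv] at hx'
      omega
  have h6 : ((∑ x ∈ lS P i, e x : ℕ) : ℤ) = ∑ x ∈ lS P i, (e x : ℤ) := by push_cast; rfl
  have h7 : ((∑ x ∈ uS P i, e x : ℕ) : ℤ) = ∑ x ∈ uS P i, (e x : ℤ) := by push_cast; rfl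
  rw [← h6] at iL
  rw [← h7] at iU
  rcases hδ with rfl | ⟨rfl, z, hz | hz, hze⟩
  · have iL0 := iL 0 (Or.inl rfl)
    have iU0 := iU 0 (Or.inl rfl)
    omega
  · have iL0 := iL 1 (Or.inr ⟨rfl, z, mem_lS.2 (by omega), by omega, hze⟩)
    have iU0 := iU 0 (Or.inl rfl)
    omega
  · have iL0 := iL 0 (Or.inl rfl)
    have iU0 := iU 1 (Or.inr ⟨rfl, z, mem_uS.2 (by omega), by omega, hze⟩)
    omega

end mat

end Pool.Agent.GaussPoset.Win.I2
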