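import Pool.Agent.W_448i2_h61.IC

/-!
(I2) for Gaussian posets (MP_448cb3_co), row 431: the swap at a simple edge.
-/

namespace Pool.Agent.GaussPoset.Win.I2

set_option linter.unusedSectionVars false

open Finset

universe u

variable {P : Type u} [Fintype P] [PartialOrder P] [DecidableEq P] {r i : ℕ} {e : P → ℕ}

/-- exchange the labels of `y` and of its partner -/
def sw (psi : P → P) (y : P) (e : P → ℕ) : P → ℕ := e ∘ Equiv.swap y (psi y)

lemma sw_y (psi : P → P) (y : P) (e : P → ℕ) : sw psi y e y = e (psi y) := by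
  unfold sw; rw [Function.comp_apply, Equiv.swap_apply_left]

lemma sw_psi (psi : P → P) (y : P) (e : P → ℕ) : sw psi y e (psi y) = e y := by
  unfold sw; rw [Function.comp_apply, Equiv.swap_apply_right]

lemma sw_ne {psi : P → P} {x y : P} (e : P → ℕ) (h1 : x ≠ y) (h2 : x ≠ psi y) :
    sw psi y e x = e x := by
  unfold sw; rw [Function.comp_apply, Equiv.swap_apply_of_ne_of_ne h1 h2]

lemma sw_sw (psi : P → P) (y : P) (e : P → ℕ) : sw psi y (sw psi y e) = e := by
  funext x
  unfold sw
  simp only [Function.comp_apply, Equiv.swap_apply_self]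

lemma sum_sw (psi : P → P) (y : P) (e : P → ℕ) : ∑ x, sw psi y e x = ∑ x, e x :=
  Equiv.sum_comp (Equiv.swap y (psi y)) e

section mat

variable {psi : P → P} (hM : Mat P i ∅ psi)
include hM

lemma sw_lev {y : P} (hy : y ∈ dbL P i) {x : P} (h1 : lev x ≠ i + 1) (h2 : lev x + 1 ≠ i)
    (e : P → ℕ) : sw psi y e x = e x := by
  have h3 := (psi_low hM hy).1
  rw [mem_dbU'] at h3
  rw [mem_dbL'] at hy
  apply sw_ne
  · rintro rfl
    exact h1 hy.1
  · rintro rfl
    exact h2 h3.1

/-- two simple edges have no common end with label zero -/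
lemma no_common {y y' : P} (hy : y ∈ SS i psi e) (hy' : y' ∈ SS i psi e) (hne : y' ≠ y) {x : P}
    (hx : x ∈ uc y) (hx' : x ∈ uc y') (h0 : e x = 0) : False := by
  rw [mem_SS] at hy hy'
  have hn : psi y' ≠ psi y := by
    intro h
    apply hne
    rw [← (psi_low hM hy.1).2.2, ← (psi_low hM hy'.1).2.2, h]
  have h1 : e y' = 0 := hy.2.lo' x hx h0 y' (mem_dc.2 (mem_uc.1 hx')) hne
  have h2 : psi y' ∈ uc x := by
    rw [mem_uc, ← mem_dc, (psi_low hM hy'.1).2.1]
    exact hx'
  have h3 : e (psi y') = 0 := hy.2.up' x hx h0 _ h2 hn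
  rcases hy'.2.one with h | h <;> omega

lemma SS_sub (H : Gr P r) {y : P} (hy : y ∈ SS i psi e) :
    SS i psi e ⊆ SS i psi (sw psi y e) := by
  intro y' hy'
  have hy0 := (mem_SS.1 hy).1
  have hyS := (mem_SS.1 hy).2
  have hy0' := (mem_SS.1 hy').1
  have hyS' := (mem_SS.1 hy').2
  obtain ⟨p1, p2, p3⟩ := psi_low hM hy0
  obtain ⟨q1, q2, q3⟩ := psi_low hM hy0'
  have hl := (mem_dbL'.1 hy0).1
  have hl' := (mem_dbL'.1 hy0').1
  have hp := (mem_dbU'.1 p1).1
  have hq := (mem_dbU'.1 q1).1
  have uy' : ∀ x ∈ uc y', sw psi y e x = e x := by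
    intro x hx
    have := lev_uc H hx
    exact sw_lev hM hy0 (by omega) (by omega) e
  rw [mem_SS]
  refine ⟨hy0', ?_, ?_, ?_, ?_, ?_, ?_⟩
  · by_cases h : y' = y
    · subst h
      rw [sw_y, sw_psi]
      rcases hyS.one with h1 | h1
      · exact Or.inr ⟨h1.2, h1.1⟩
      · exact Or.inl ⟨h1.2, h1.1⟩
    · rw [sw_ne e h (by rintro rfl; omega), sw_ne e (x := psi y') (by
        intro h2
        rw [← h2] at hl
        omega) (by
        intro h2
        apply h
        rw [← p3, ← q3, h2])]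
      exact hyS'.one
  · intro z hz
    have := lev_dc H hz
    rw [sw_lev hM hy0 (by omega) (by omega)]
    exact hyS'.lo z hz
  · intro u hu
    have := lev_uc H hu
    rw [sw_lev hM hy0 (by omega) (by omega)]
    exact hyS'.up u hu
  · obtain ⟨x, hx, hx0⟩ := hyS'.ex
    exact ⟨x, hx, by rw [uy' x hx, hx0]⟩
  · intro x hx hx0 z hz hzy
    rw [uy' x hx] at hx0
    have h1 := lev_dc H hz
    have h2 := lev_uc H hx
    have hz0 := hyS'.lo' x hx hx0 z hz hzy
    by_cases h3 : z = y
    · subst h3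
      exact absurd (no_common hM hy' hy (fun h => hzy h) hx (mem_uc.2 (mem_dc.1 hz)) hx0) id
    · rw [sw_ne e h3 (by rintro rfl; omega), hz0]
  · intro x hx hx0 u hu huy
    rw [uy' x hx] at hx0
    have h1 := lev_uc H hu
    have h2 := lev_uc H hx
    have hu0 := hyS'.up' x hx hx0 u hu huy
    by_cases h3 : u = psi y
    · subst h3
      have h4 : x ∈ uc y := by
        rw [← p2, mem_dc, ← mem_uc]
        exact hu
      refine absurd (no_common hM hy' hy ?_ hx h4 hx0) id
      rintro rfl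
      exact huy rfl
    · rw [sw_ne e (by rintro rfl; omega) h3, hu0]

/-- the simple edges are not changed by a swap -/
theorem SS_sw (H : Gr P r) {y : P} (hy : y ∈ SS i psi e) :
    SS i psi (sw psi y e) = SS i psi e := by
  have h1 := SS_sub hM H hy
  apply Finset.Subset.antisymm _ h1
  have h2 := SS_sub hM H (h1 hy)
  rwa [sw_sw] at h2

end mat

/-- the ends of `y` with label zero -/
noncomputable def z0 (e : P → ℕ) (y : P) : Finset P := (uc y).filter (fun x => e x = 0)

section stat

variable {psi : P → P} (hM : Mat P i ∅ psi) (H : Gr P r) {y : P} (hy : y ∈ SS i psi e)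
  (h1 : e y = 1)
include hM H hy h1

lemma psi0 : e (psi y) = 0 := by
  rcases (mem_SS.1 hy).2.one with h | h <;> omega

lemma FD_sw {z : P} (hz : i < lev z) : FD (sw psi y e) z ↔ FD e z := by
  have hy0 := (mem_SS.1 hy).1
  have hyS := (mem_SS.1 hy).2
  have hl := (mem_dbL'.1 hy0).1
  have hp := (mem_dbU'.1 (psi_low hM hy0).1).1
  have key : ∀ z', z' ⋖ z → sw psi y e z' = e z' := by
    intro z' hz'
    have := lev_uc H (mem_uc.2 hz')
    exact sw_lev hM hy0 (by omega) (by omega) e
  by_cases h : z = y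
  · subst h
    constructor
    · rintro ⟨z', hz', hlt⟩
      rw [key z' hz', hyS.lo z' (mem_dc.2 hz')] at hlt
      omega
    · rintro ⟨z', hz', hlt⟩
      rw [hyS.lo z' (mem_dc.2 hz')] at hlt
      omega
  · have h2 : sw psi y e z = e z := sw_ne e h (by rintro rfl; omega)
    constructor
    · rintro ⟨z', hz', hlt⟩
      exact ⟨z', hz', by rwa [key z' hz', h2] at hlt⟩
    · rintro ⟨z', hz', hlt⟩
      exact ⟨z', hz', by rwa [key z' hz', h2]⟩

lemma GU_sw {z : P} (hz : i < lev z) (hne : z ≠ y) : GU (sw psi y e) z ↔ GU e z := by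
  have hy0 := (mem_SS.1 hy).1
  have hyS := (mem_SS.1 hy).2
  have hl := (mem_dbL'.1 hy0).1
  have hp := (mem_dbU'.1 (psi_low hM hy0).1).1
  have h2 : sw psi y e z = e z := sw_ne e hne (by rintro rfl; omega)
  by_cases h : y ∈ uc z
  · have h3 : e z = 0 := hyS.lo z (mem_dc.2 (mem_uc.1 h))
    constructor
    · intro _
      exact ⟨y, mem_uc.1 h, by omega⟩
    · intro _
      exact ⟨y, mem_uc.1 h, by rw [h2]; omega⟩
  · have key : ∀ a, z ⋖ a → sw psi y e a = e a := by
      intro a ha
      have := lev_uc H (mem_uc.2 ha)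
      exact sw_ne e (by rintro rfl; exact h (mem_uc.2 ha)) (by rintro rfl; omega)
    constructor
    · rintro ⟨a, ha, hle⟩
      exact ⟨a, ha, by rwa [h2, key a ha] at hle⟩
    · rintro ⟨a, ha, hle⟩
      exact ⟨a, ha, by rwa [h2, key a ha]⟩

lemma FU_sw {z : P} (hz : lev z < i) : FU (sw psi y e) z ↔ FU e z := by
  have hy0 := (mem_SS.1 hy).1
  have hyS := (mem_SS.1 hy).2
  have hl := (mem_dbL'.1 hy0).1
  have hp := (mem_dbU'.1 (psi_low hM hy0).1).1
  have key : ∀ z', z ⋖ z' → sw psi y e z' = e z' := by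
    intro z' hz'
    have := lev_uc H (mem_uc.2 hz')
    exact sw_lev hM hy0 (by omega) (by omega) e
  by_cases h : z = psi y
  · subst h
    constructor
    · rintro ⟨z', hz', hlt⟩
      rw [key z' hz', hyS.up z' (mem_uc.2 hz')] at hlt
      omega
    · rintro ⟨z', hz', hlt⟩
      rw [hyS.up z' (mem_uc.2 hz')] at hlt
      omega
  · have h2 : sw psi y e z = e z := sw_ne e (by rintro rfl; omega) h
    constructor
    · rintro ⟨z', hz', hlt⟩
      exact ⟨z', hz', by rwa [key z' hz', h2] at hlt⟩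
    · rintro ⟨z', hz', hlt⟩
      exact ⟨z', hz', by rwa [key z' hz', h2]⟩

lemma GD_sw {z : P} (hz : lev z < i) (hne : z ≠ psi y) : GD (sw psi y e) z ↔ GD e z := by
  have hy0 := (mem_SS.1 hy).1
  have hyS := (mem_SS.1 hy).2
  have hl := (mem_dbL'.1 hy0).1
  have hp := (mem_dbU'.1 (psi_low hM hy0).1).1
  have h2 : sw psi y e z = e z := sw_ne e (by rintro rfl; omega) hne
  by_cases h : psi y ∈ dc z
  · have h3 : e z = 0 := hyS.up z (mem_uc.2 (mem_dc.1 h))
    constructor
    · intro _
      exact ⟨psi y, mem_dc.1 h, by omega⟩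
    · intro _
      exact ⟨psi y, mem_dc.1 h, by rw [h2]; omega⟩
  · have key : ∀ a, a ⋖ z → sw psi y e a = e a := by
      intro a ha
      have := lev_uc H (mem_uc.2 ha)
      exact sw_ne e (by rintro rfl; omega) (by rintro rfl; exact h (mem_dc.2 ha))
    constructor
    · rintro ⟨a, ha, hle⟩
      exact ⟨a, ha, by rwa [h2, key a ha] at hle⟩
    · rintro ⟨a, ha, hle⟩
      exact ⟨a, ha, by rwa [h2, key a ha]⟩

lemma not_FD_y : ¬ FD e y := by
  rintro ⟨z', hz', hlt⟩
  rw [(mem_SS.1 hy).2.lo z' (mem_dc.2 hz')] at hlt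
  omega

lemma GU_y : GU e y ↔ (z0 e y).card ≠ 2 := by
  have hc := (mem_dbL'.1 (mem_SS.1 hy).1).2
  unfold z0
  constructor
  · rintro ⟨a, ha, hle⟩ h
    have h2 : (uc y).filter (fun x => e x = 0) = uc y := by
      apply Finset.eq_of_subset_of_card_le (filter_subset _ _)
      omega
    have h3 : a ∈ (uc y).filter (fun x => e x = 0) := by
      rw [h2]
      exact mem_uc.2 ha
    rw [mem_filter] at h3
    omega
  · intro h
    by_contra h2
    apply h
    rw [← hc]
    congr 1
    rw [Finset.filter_eq_self]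
    intro a ha
    by_contra h3
    exact h2 ⟨a, mem_uc.1 ha, by omega⟩

lemma GU_sw_y : GU (sw psi y e) y := by
  have hc := (mem_dbL'.1 (mem_SS.1 hy).1).2
  have h2 : (uc y).Nonempty := by
    rw [← card_pos]
    omega
  obtain ⟨a, ha⟩ := h2
  refine ⟨a, mem_uc.1 ha, ?_⟩
  rw [sw_y, psi0 hM H hy h1]
  exact Nat.zero_le _

lemma not_FU_psi : ¬ FU (sw psi y e) (psi y) := by
  have hp := (mem_dbU'.1 (psi_low hM (mem_SS.1 hy).1).1).1
  rintro ⟨z', hz', hlt⟩
  have := lev_uc H (mem_uc.2 hz')
  have h2 := sw_lev hM (mem_SS.1 hy).1 (x := z') (by omega) (by omega) e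
  rw [h2, (mem_SS.1 hy).2.up z' (mem_uc.2 hz')] at hlt
  omega

lemma GD_psi : GD e (psi y) := by
  have hc := (mem_dbU'.1 (psi_low hM (mem_SS.1 hy).1).1).2
  have h2 : (dc (psi y)).Nonempty := by
    rw [← card_pos]
    omega
  obtain ⟨a, ha⟩ := h2
  refine ⟨a, mem_dc.1 ha, ?_⟩
  rw [psi0 hM H hy h1]
  exact Nat.zero_le _

lemma GD_sw_psi : GD (sw psi y e) (psi y) ↔ (z0 e y).card ≠ 2 := by
  obtain ⟨p1, p2, p3⟩ := psi_low hM (mem_SS.1 hy).1
  have hl := (mem_dbL'.1 (mem_SS.1 hy).1).1
  rw [← GU_y hM H hy h1]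
  have key : ∀ a ∈ uc y, sw psi y e a = e a := by
    intro a ha
    have := lev_uc H ha
    exact sw_lev hM (mem_SS.1 hy).1 (by omega) (by omega) e
  unfold GD GU
  rw [sw_psi]
  constructor
  · rintro ⟨a, ha, hle⟩
    have h2 : a ∈ uc y := by
      rw [← p2]
      exact mem_dc.2 ha
    exact ⟨a, mem_uc.1 h2, by rwa [key a h2] at hle⟩
  · rintro ⟨a, ha, hle⟩
    refine ⟨a, ?_, by rwa [key a (mem_uc.2 ha)]⟩
    rw [← mem_dc, p2]
    exact mem_uc.2 ha

lemma AdmL_sw : AdmL i (sw psi y e) ↔ AdmL i e := by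
  constructor
  · rintro h z hz ⟨h2, h3⟩
    have h4 : z ≠ y := by
      rintro rfl
      exact not_FD_y hM H hy h1 h2
    exact h z hz ⟨(FD_sw hM H hy h1 hz).2 h2, (GU_sw hM H hy h1 hz h4).2 h3⟩
  · rintro h z hz ⟨h2, h3⟩
    rw [FD_sw hM H hy h1 hz] at h2
    have h4 : z ≠ y := by
      rintro rfl
      exact not_FD_y hM H hy h1 h2
    exact h z hz ⟨h2, (GU_sw hM H hy h1 hz h4).1 h3⟩

lemma AdmU_sw : AdmU i (sw psi y e) ↔ AdmU i e := by
  constructor
  · rintro h z hz ⟨h2, h3⟩
    rw [← FU_sw hM H hy h1 hz] at h2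
    have h4 : z ≠ psi y := by
      rintro rfl
      exact not_FU_psi hM H hy h1 h2
    exact h z hz ⟨h2, (GD_sw hM H hy h1 hz h4).2 h3⟩
  · rintro h z hz ⟨h2, h3⟩
    have h4 : z ≠ psi y := by
      rintro rfl
      exact not_FU_psi hM H hy h1 h2
    rw [FU_sw hM H hy h1 hz] at h2
    exact h z hz ⟨h2, (GD_sw hM H hy h1 hz h4).1 h3⟩

lemma aL_sw : aL i (sw psi y e) = aL i e := by
  classical
  unfold aL
  congr 1
  ext z
  simp only [mem_filter, mem_univ, true_and]
  constructor
  · rintro ⟨hz, h⟩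
    exact ⟨hz, (FD_sw hM H hy h1 hz).1 h⟩
  · rintro ⟨hz, h⟩
    exact ⟨hz, (FD_sw hM H hy h1 hz).2 h⟩

lemma aU_sw : aU i (sw psi y e) = aU i e := by
  classical
  unfold aU
  congr 1
  ext z
  simp only [mem_filter, mem_univ, true_and]
  constructor
  · rintro ⟨hz, h⟩
    exact ⟨hz, (FU_sw hM H hy h1 hz).1 h⟩
  · rintro ⟨hz, h⟩
    exact ⟨hz, (FU_sw hM H hy h1 hz).2 h⟩

lemma pL_sw : pL i e = pL i (sw psi y e) + (if (z0 e y).card = 2 then 1 else 0) := by
  classical
  have hl := (mem_dbL'.1 (mem_SS.1 hy).1).1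
  unfold pL
  have h2 : univ.filter (fun z : P => i < lev z ∧ ¬ FD e z ∧ ¬ GU e z) =
      univ.filter (fun z : P => i < lev z ∧ ¬ FD (sw psi y e) z ∧ ¬ GU (sw psi y e) z) ∪
        (if (z0 e y).card = 2 then {y} else ∅) := by
    ext z
    simp only [mem_filter, mem_univ, true_and, mem_union]
    by_cases hz : z = y
    · subst hz
      have h3 := GU_sw_y hM H hy h1
      have h4 := not_FD_y hM H hy h1
      have h5 := GU_y hM H hy h1
      split_ifs with h6
      · simp only [mem_singleton, or_true, iff_true]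
        exact ⟨by omega, h4, fun h => (h5.1 h) h6⟩
      · simp only [notMem_empty, or_false]
        constructor
        · rintro ⟨-, -, h⟩
          exact absurd (h5.2 h6) h
        · rintro ⟨-, -, h⟩
          exact absurd h3 h
    · have h3 : z ∉ (if (z0 e y).card = 2 then ({y} : Finset P) else ∅) := by
        split_ifs
        · rwa [mem_singleton]
        · exact notMem_empty _
      simp only [h3, or_false]
      constructor
      · rintro ⟨h4, h5, h6⟩
        refine ⟨h4, ?_, ?_⟩
        · rwa [FD_sw hM H hy h1 h4]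
        · rwa [GU_sw hM H hy h1 h4 hz]
      · rintro ⟨h4, h5, h6⟩
        rw [FD_sw hM H hy h1 h4] at h5
        rw [GU_sw hM H hy h1 h4 hz] at h6
        exact ⟨h4, h5, h6⟩
  rw [h2, card_union_of_disjoint]
  · split_ifs <;> simp
  · split_ifs
    · rw [disjoint_singleton_right, mem_filter]
      rintro ⟨-, -, -, h⟩
      exact h (GU_sw_y hM H hy h1)
    · exact disjoint_empty_right _

lemma pU_sw : pU i (sw psi y e) = pU i e + (if (z0 e y).card = 2 then 1 else 0) := by
  classical
  have hp := (mem_dbU'.1 (psi_low hM (mem_SS.1 hy).1).1).1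
  unfold pU
  have h2 : univ.filter (fun z : P => lev z < i ∧ ¬ FU (sw psi y e) z ∧ ¬ GD (sw psi y e) z) =
      univ.filter (fun z : P => lev z < i ∧ ¬ FU e z ∧ ¬ GD e z) ∪
        (if (z0 e y).card = 2 then {psi y} else ∅) := by
    ext z
    simp only [mem_filter, mem_univ, true_and, mem_union]
    by_cases hz : z = psi y
    · subst hz
      have h3 := GD_psi hM H hy h1
      have h4 := not_FU_psi hM H hy h1
      have h5 := GD_sw_psi hM H hy h1
      split_ifs with h6
      · simp only [mem_singleton, or_true, iff_true]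
        exact ⟨by omega, h4, fun h => (h5.1 h) h6⟩
      · simp only [notMem_empty, or_false]
        constructor
        · rintro ⟨-, -, h⟩
          exact absurd (h5.2 h6) h
        · rintro ⟨-, -, h⟩
          exact absurd h3 h
    · have h3 : z ∉ (if (z0 e y).card = 2 then ({psi y} : Finset P) else ∅) := by
        split_ifs
        · rwa [mem_singleton]
        · exact notMem_empty _
      simp only [h3, or_false]
      constructor
      · rintro ⟨h4, h5, h6⟩
        rw [FU_sw hM H hy h1 h4] at h5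
        rw [GD_sw hM H hy h1 h4 hz] at h6
        exact ⟨h4, h5, h6⟩
      · rintro ⟨h4, h5, h6⟩
        refine ⟨h4, ?_, ?_⟩
        · rwa [FU_sw hM H hy h1 h4]
        · rwa [GD_sw hM H hy h1 h4 hz]
  rw [h2, card_union_of_disjoint]
  · split_ifs <;> simp
  · split_ifs
    · rw [disjoint_singleton_right, mem_filter]
      rintro ⟨-, -, -, h⟩
      exact h (GD_psi hM H hy h1)
    · exact disjoint_empty_right _

lemma AL_sw : AL i e = AL i (sw psi y e) ∪ z0 e y ∧ Disjoint (AL i (sw psi y e)) (z0 e y) := by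
  classical
  have hy0 := (mem_SS.1 hy).1
  have hyS := (mem_SS.1 hy).2
  have hl := (mem_dbL'.1 hy0).1
  have hp := (mem_dbU'.1 (psi_low hM hy0).1).1
  have hp0 := psi0 hM H hy h1
  have site : ∀ v, lev v = i → sw psi y e v = e v := fun v hv =>
    sw_lev hM hy0 (by omega) (by omega) e
  have hzf : ∀ v ∈ z0 e y, ¬ FD (sw psi y e) v := by
    intro v hv
    unfold z0 at hv
    rw [mem_filter] at hv
    have h2 := lev_uc H hv.1
    rintro ⟨z, hz, hlt⟩
    have h3 := lev_dc H (mem_dc.2 hz)
    by_cases h4 : z = y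
    · subst h4
      rw [sw_y, hp0] at hlt
      omega
    · rw [sw_ne e h4 (by rintro rfl; omega),
        hyS.lo' v hv.1 hv.2 z (mem_dc.2 hz) h4] at hlt
      omega
  constructor
  · ext v
    rw [mem_union, NormD_mem_AL, NormD_mem_AL]
    constructor
    · rintro ⟨hv, z, hz, hlt⟩
      have h3 := lev_dc H (mem_dc.2 hz)
      by_cases h4 : z = y
      · rw [h4] at hz hlt
        right
        unfold z0
        rw [mem_filter]
        exact ⟨mem_uc.2 hz, by omega⟩
      · left
        refine ⟨hv, z, hz, ?_⟩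
        rwa [site v hv, sw_ne e h4 (by rintro rfl; omega)]
    · rintro (⟨hv, z, hz, hlt⟩ | h)
      · refine ⟨hv, z, hz, ?_⟩
        have h3 := lev_dc H (mem_dc.2 hz)
        by_cases h4 : z = y
        · subst h4
          rw [sw_y, hp0] at hlt
          omega
        · rwa [site v hv, sw_ne e h4 (by rintro rfl; omega)] at hlt
      · unfold z0 at h
        rw [mem_filter] at h
        have h2 := lev_uc H h.1
        exact ⟨by omega, y, mem_uc.1 h.1, by omega⟩
  · rw [disjoint_left]
    intro v hv hv'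
    rw [NormD_mem_AL] at hv
    exact hzf v hv' hv.2

lemma AU_sw : AU i (sw psi y e) = AU i e ∪ z0 e y ∧ Disjoint (AU i e) (z0 e y) := by
  classical
  have hy0 := (mem_SS.1 hy).1
  have hyS := (mem_SS.1 hy).2
  have hl := (mem_dbL'.1 hy0).1
  obtain ⟨p1, p2, p3⟩ := psi_low hM hy0
  have hp := (mem_dbU'.1 p1).1
  have hp0 := psi0 hM H hy h1
  have site : ∀ v, lev v = i → sw psi y e v = e v := fun v hv =>
    sw_lev hM hy0 (by omega) (by omega) e
  have hz : ∀ v ∈ z0 e y, ¬ FU e v := by
    intro v hv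
    unfold z0 at hv
    rw [mem_filter] at hv
    have h2 := lev_uc H hv.1
    rintro ⟨z, hz, hlt⟩
    by_cases h4 : z = psi y
    · subst h4
      omega
    · rw [hyS.up' v hv.1 hv.2 z (mem_uc.2 hz) h4] at hlt
      omega
  constructor
  · ext v
    rw [mem_union, NormD_mem_AU, NormD_mem_AU]
    constructor
    · rintro ⟨hv, z, hz, hlt⟩
      have h3 := lev_uc H (mem_uc.2 hz)
      rw [site v hv] at hlt
      by_cases h4 : z = psi y
      · subst h4
        right
        rw [sw_psi] at hlt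
        unfold z0
        rw [mem_filter]
        refine ⟨?_, by omega⟩
        rw [← p2]
        exact mem_dc.2 hz
      · left
        refine ⟨hv, z, hz, ?_⟩
        rwa [sw_ne e (by rintro rfl; omega) h4] at hlt
    · rintro (⟨hv, z, hz, hlt⟩ | h)
      · refine ⟨hv, z, hz, ?_⟩
        have h3 := lev_uc H (mem_uc.2 hz)
        rw [site v hv]
        by_cases h4 : z = psi y
        · subst h4
          omega
        · rwa [sw_ne e (by rintro rfl; omega) h4]
      · unfold z0 at h
        rw [mem_filter] at h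
        have h2 := lev_uc H h.1
        refine ⟨by omega, psi y, ?_, ?_⟩
        · rw [← mem_dc, p2]
          exact h.1
        · rw [site v (by omega), sw_psi]
          omega
  · rw [disjoint_left]
    intro v hv hv'
    rw [NormD_mem_AU] at hv
    exact hz v hv' hv.2

end stat

end Pool.Agent.GaussPoset.Win.I2
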