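import Pool.Agent.W_448i2_h61.ID

/-!
(I2) for Gaussian posets (MP_448cb3_co), row 431: the sum over a class of configurations.
-/

namespace Pool.Agent.GaussPoset.Win.I2

set_option linter.unusedSectionVars false

open Finset

universe u

variable {P : Type u} [Fintype P] [PartialOrder P] [DecidableEq P] {r i : ℕ} {e : P → ℕ}

/-- exponent of `xi` in a swap -/
noncomputable def mm (e : P → ℕ) (y : P) : ℕ :=
  (z0 e y).card + (if (z0 e y).card = 2 then 1 else 0)

lemma dd_eq : dd = (1 : A) + xx := one_add_xx.symm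

lemma one_add_xi : 1 + xi = dd * xi := by
  rw [dd_eq, add_mul, one_mul, xx_mul_xi]
  ring

lemma dd_dvd_odd {m : ℕ} (h : m = 1 ∨ m = 3) : dd ∣ 1 + xi ^ m := by
  rcases h with rfl | rfl
  · rw [pow_one, one_add_xi]
    exact dvd_mul_right _ _
  · have : 1 + xi ^ 3 = dd * (xi * (1 - xi + xi ^ 2)) := by
      rw [← mul_assoc, ← one_add_xi]
      ring
    rw [this]
    exact dvd_mul_right _ _

section stat

variable {psi : P → P} (hM : Mat P i ∅ psi) (H : Gr P r) {y : P}
include hM

lemma mm_cases (hy : y ∈ SS i psi e) : mm e y = 1 ∨ mm e y = 3 := by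
  have h1 := (mem_dbL'.1 (mem_SS.1 hy).1).2
  have h2 : (z0 e y).card ≤ 2 := by
    rw [← h1]
    exact card_le_card (filter_subset _ _)
  have h3 : 0 < (z0 e y).card := by
    rw [card_pos]
    obtain ⟨x, hx, hx0⟩ := (mem_SS.1 hy).2.ex
    exact ⟨x, by unfold z0; rw [mem_filter]; exact ⟨hx, hx0⟩⟩
  unfold mm
  split_ifs with h
  · right
    omega
  · left
    omega

include H

theorem tC_sw (hy : y ∈ SS i psi e) (h1 : e y = 1) (C : Finset P) :
    tC i C (sw psi y e) = tC i C e * xi ^ mm e y := by
  classical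
  obtain ⟨a1, a2⟩ := AL_sw hM H hy h1
  obtain ⟨b1, b2⟩ := AU_sw hM H hy h1
  have hd : Disjoint (AL i (sw psi y e)) (AU i (sw psi y e)) ↔ Disjoint (AL i e) (AU i e) := by
    rw [b1, a1, disjoint_union_right, disjoint_union_left]
    constructor
    · rintro ⟨h2, -⟩
      exact ⟨h2, b2.symm⟩
    · rintro ⟨h2, -⟩
      exact ⟨h2, a2⟩
  unfold tC
  by_cases h2 : Disjoint (AL i e) (AU i e)
  · rw [if_pos h2, if_pos (hd.2 h2)]
    have c1 : (AL i e).card = (AL i (sw psi y e)).card + (z0 e y).card := by
      conv_lhs => rw [a1]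
      exact card_union_of_disjoint a2
    have c2 : (AU i (sw psi y e)).card = (AU i e).card + (z0 e y).card := by
      rw [b1]
      exact card_union_of_disjoint b2
    have hcw : cw i (sw psi y e) = cw i e * xi ^ (if (z0 e y).card = 2 then 1 else 0) := by
      unfold cw
      rw [AdmL_sw hM H hy h1, AdmU_sw hM H hy h1, aL_sw hM H hy h1, aU_sw hM H hy h1]
      by_cases h3 : AdmL i e ∧ AdmU i e
      · rw [if_pos h3, if_pos h3, pU_sw hM H hy h1, pL_sw hM H hy h1]
        have : pL i (sw psi y e) + (pU i e + (if (z0 e y).card = 2 then 1 else 0)) =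
            pL i (sw psi y e) + (if (z0 e y).card = 2 then 1 else 0) + pU i e := by omega
        rw [this, ← add_assoc (aU i e), pow_add xi]
        ring
      · rw [if_neg h3, if_neg h3, zero_mul]
    rw [hcw, c2, c1]
    have h4 : (st i C).card - (AL i (sw psi y e)).card - ((AU i e).card + (z0 e y).card) =
        (st i C).card - ((AL i (sw psi y e)).card + (z0 e y).card) - (AU i e).card := by omega
    rw [h4]
    unfold mm
    rw [pow_add xi, pow_add xx]
    have h5 : xx ^ (z0 e y).card * xi ^ (z0 e y).card = 1 := by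
      rw [← mul_pow, xx_mul_xi, one_pow]
    calc cw i e * xi ^ (if (z0 e y).card = 2 then 1 else 0) *
          (xx ^ (AL i (sw psi y e)).card * dd ^ ((st i C).card -
            ((AL i (sw psi y e)).card + (z0 e y).card) - (AU i e).card))
        = cw i e * xi ^ (if (z0 e y).card = 2 then 1 else 0) *
          (xx ^ (AL i (sw psi y e)).card * dd ^ ((st i C).card -
            ((AL i (sw psi y e)).card + (z0 e y).card) - (AU i e).card)) * 1 := by rw [mul_one]
      _ = _ := by rw [← h5]; ring
  · rw [if_neg h2, if_neg (fun h => h2 (hd.1 h)), zero_mul]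

lemma mm_sw (hy : y ∈ dbL P i) {y' : P} (hy' : y' ∈ dbL P i) :
    mm (sw psi y e) y' = mm e y' := by
  have h2 : z0 (sw psi y e) y' = z0 e y' := by
    unfold z0
    refine filter_congr fun x hx => ?_
    have h3 := lev_uc H hx
    rw [mem_dbL'] at hy'
    rw [sw_lev hM hy (by omega) (by omega)]
  unfold mm
  rw [h2]

omit H in
/-- the weight of a configuration with the simple edges in `D` summed -/
noncomputable def gg (i : ℕ) (psi : P → P) (C D : Finset P) (e : P → ℕ) : A :=
  tC i C e * ∏ y ∈ SS i psi e ∩ D, (1 + xi ^ mm e y)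

end stat

open Classical in
/-- the configurations with all simple edges in `D` in the first orientation -/
noncomputable def Om (i : ℕ) (psi : P → P) (Ω : Finset (P → ℕ)) (D : Finset P) :
    Finset (P → ℕ) := Ω.filter (fun e => ∀ y ∈ SS i psi e ∩ D, e y = 1)

end Pool.Agent.GaussPoset.Win.I2
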