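import Pool.Agent.W_448i2_h61.IE

/-!
(I2) for Gaussian posets (MP_448cb3_co), row 431: divisibility of the sum over the classes.
-/

namespace Pool.Agent.GaussPoset.Win.I2

set_option linter.unusedSectionVars false

open Finset

universe u

variable {P : Type u} [Fintype P] [PartialOrder P] [DecidableEq P] {r i : ℕ} {e : P → ℕ}

section cls

variable {psi : P → P} (hM : Mat P i ∅ psi) (H : Gr P r) {C : Finset P} {Ω : Finset (P → ℕ)}
  (hΩ : ∀ e ∈ Ω, ∀ y ∈ SS i psi e, sw psi y e ∈ Ω)
include hM H hΩ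

lemma step {D : Finset P} {y0 : P} (hD : D ⊆ dbL P i) (hy0 : y0 ∈ dbL P i) (hn : y0 ∉ D) :
    ∑ e ∈ Om i psi Ω D, gg i psi C D e =
      ∑ e ∈ Om i psi Ω (insert y0 D), gg i psi C (insert y0 D) e := by
  classical
  have inter : ∀ e : P → ℕ, y0 ∉ SS i psi e → SS i psi e ∩ insert y0 D = SS i psi e ∩ D := by
    intro e h
    ext y
    simp only [mem_inter, mem_insert]
    constructor
    · rintro ⟨h1, rfl | h2⟩
      · exact absurd h1 h
      · exact ⟨h1, h2⟩
    · rintro ⟨h1, h2⟩
      exact ⟨h1, Or.inr h2⟩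
  have inter' : ∀ e : P → ℕ, y0 ∈ SS i psi e →
      SS i psi e ∩ insert y0 D = insert y0 (SS i psi e ∩ D) := by
    intro e h
    ext y
    simp only [mem_inter, mem_insert]
    constructor
    · rintro ⟨h1, rfl | h2⟩
      · exact Or.inl rfl
      · exact Or.inr ⟨h1, h2⟩
    · rintro (rfl | ⟨h1, h2⟩)
      · exact ⟨h, Or.inl rfl⟩
      · exact ⟨h1, Or.inr h2⟩
  rw [← Finset.sum_filter_add_sum_filter_not (Om i psi Ω D) (fun e => y0 ∈ SS i psi e),
    ← Finset.sum_filter_add_sum_filter_not (Om i psi Ω (insert y0 D)) (fun e => y0 ∈ SS i psi e)]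
  congr 1
  · rw [← Finset.sum_filter_add_sum_filter_not
      ((Om i psi Ω D).filter (fun e => y0 ∈ SS i psi e)) (fun e => e y0 = 1)]
    have hA : ((Om i psi Ω D).filter (fun e => y0 ∈ SS i psi e)).filter (fun e => e y0 = 1) =
        (Om i psi Ω (insert y0 D)).filter (fun e => y0 ∈ SS i psi e) := by
      ext e
      unfold Om
      simp only [mem_filter]
      constructor
      · rintro ⟨⟨⟨h1, h2⟩, h3⟩, h4⟩
        refine ⟨⟨h1, ?_⟩, h3⟩
        rw [inter' e h3]
        intro y hy
        rcases mem_insert.1 hy with rfl | hy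
        · exact h4
        · exact h2 y hy
      · rintro ⟨⟨h1, h2⟩, h3⟩
        rw [inter' e h3] at h2
        exact ⟨⟨⟨h1, fun y hy => h2 y (mem_insert_of_mem hy)⟩, h3⟩, h2 y0 (mem_insert_self _ _)⟩
    rw [hA]
    have hB : ∑ e ∈ ((Om i psi Ω D).filter (fun e => y0 ∈ SS i psi e)).filter
        (fun e => ¬ e y0 = 1), gg i psi C D e =
        ∑ e ∈ (Om i psi Ω (insert y0 D)).filter (fun e => y0 ∈ SS i psi e),
          gg i psi C D e * xi ^ mm e y0 := by
      symm
      refine Finset.sum_bij' (fun e _ => sw psi y0 e) (fun e _ => sw psi y0 e) ?_ ?_ ?_ ?_ ?_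
      · intro e he
        rw [← hA] at he
        unfold Om at he ⊢
        simp only [mem_filter] at he ⊢
        obtain ⟨⟨⟨h1, h2⟩, h3⟩, h4⟩ := he
        have h5 := SS_sw hM H h3
        refine ⟨⟨⟨hΩ e h1 y0 h3, ?_⟩, by rw [h5]; exact h3⟩, ?_⟩
        · rw [h5]
          intro y hy
          have hyD := (mem_inter.1 hy).2
          have l1 := mem_dbL'.1 (hD hyD)
          have l2 := mem_dbU'.1 (psi_low hM hy0).1
          rw [sw_ne e (by rintro rfl; exact hn hyD) (by rintro rfl; omega)]
          exact h2 y hy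
        · rw [sw_y, psi0 hM H h3 h4]
          omega
      · intro e he
        rw [← hA]
        unfold Om at he ⊢
        simp only [mem_filter] at he ⊢
        obtain ⟨⟨⟨h1, h2⟩, h3⟩, h4⟩ := he
        have h5 := SS_sw hM H h3
        refine ⟨⟨⟨hΩ e h1 y0 h3, ?_⟩, by rw [h5]; exact h3⟩, ?_⟩
        · rw [h5]
          intro y hy
          have hyD := (mem_inter.1 hy).2
          have l1 := mem_dbL'.1 (hD hyD)
          have l2 := mem_dbU'.1 (psi_low hM hy0).1
          rw [sw_ne e (by rintro rfl; exact hn hyD) (by rintro rfl; omega)]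
          exact h2 y hy
        · rw [sw_y]
          rcases (mem_SS.1 h3).2.one with h | h <;> omega
      · intro e _
        exact sw_sw _ _ _
      · intro e _
        exact sw_sw _ _ _
      · intro e he
        rw [← hA] at he
        unfold Om at he
        simp only [mem_filter] at he
        obtain ⟨⟨⟨h1, h2⟩, h3⟩, h4⟩ := he
        unfold gg
        rw [SS_sw hM H h3, tC_sw hM H h3 h4]
        have h5 : ∏ y ∈ SS i psi e ∩ D, (1 + xi ^ mm (sw psi y0 e) y) =
            ∏ y ∈ SS i psi e ∩ D, (1 + xi ^ mm e y) := by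
          refine Finset.prod_congr rfl fun y hy => ?_
          rw [mm_sw hM H hy0 (hD (mem_inter.1 hy).2)]
        rw [h5]
        ring
    rw [hB, ← Finset.sum_add_distrib]
    refine Finset.sum_congr rfl fun e he => ?_
    rw [mem_filter] at he
    unfold gg
    rw [inter' e he.2, Finset.prod_insert]
    · ring
    · intro h
      exact hn (mem_inter.1 h).2
  · have hA : (Om i psi Ω D).filter (fun e => ¬ y0 ∈ SS i psi e) =
        (Om i psi Ω (insert y0 D)).filter (fun e => ¬ y0 ∈ SS i psi e) := by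
      ext e
      unfold Om
      simp only [mem_filter]
      constructor
      · rintro ⟨⟨h1, h2⟩, h3⟩
        exact ⟨⟨h1, by rw [inter e h3]; exact h2⟩, h3⟩
      · rintro ⟨⟨h1, h2⟩, h3⟩
        rw [inter e h3] at h2
        exact ⟨⟨h1, h2⟩, h3⟩
    rw [hA]
    refine Finset.sum_congr rfl fun e he => ?_
    rw [mem_filter] at he
    unfold gg
    rw [inter e he.2]

lemma all_steps (D : Finset P) (hD : D ⊆ dbL P i) :
    ∑ e ∈ Ω, tC i C e = ∑ e ∈ Om i psi Ω D, gg i psi C D e := by
  classical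
  induction D using Finset.induction_on with
  | empty =>
    have h1 : Om i psi Ω ∅ = Ω := by
      unfold Om
      simp
    rw [h1]
    refine Finset.sum_congr rfl fun e _ => ?_
    unfold gg
    simp
  | insert y D hy ih =>
    rw [ih (fun x hx => hD (mem_insert_of_mem hx))]
    exact step hM H hΩ (fun x hx => hD (mem_insert_of_mem hx)) (hD (mem_insert_self _ _)) hy

/-- divisibility of the sum over all classes -/
theorem class_dvd {N : ℕ} (hN : ∀ e ∈ Ω, dd ^ N ∣ tC i C e * dd ^ (SS i psi e).card) :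
    dd ^ N ∣ ∑ e ∈ Ω, tC i C e := by
  classical
  rw [all_steps hM H hΩ (dbL P i) (Finset.Subset.refl _)]
  refine Finset.dvd_sum fun e he => ?_
  unfold Om at he
  rw [mem_filter] at he
  have h1 : SS i psi e ∩ dbL P i = SS i psi e := by
    rw [Finset.inter_eq_left]
    intro y hy
    exact (mem_SS.1 hy).1
  unfold gg
  rw [h1]
  refine (hN e he.1).trans (mul_dvd_mul_left _ ?_)
  rw [← Finset.prod_const]
  refine Finset.prod_dvd_prod_of_dvd _ _ fun y hy => ?_
  exact dd_dvd_odd (mm_cases hM hy)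

end cls

section wt

variable {psi : P → P} (hM : Mat P i ∅ psi) (H : Gr P r)
include hM H

/-- the support of a configuration after a swap -/
lemma spt_sw {C : Finset P} (hC : Part (i + 1) C) (hs : Spt C e) {y : P} (hy : y ∈ SS i psi e) :
    Spt C (sw psi y e) := by
  have hy0 := (mem_SS.1 hy).1
  obtain ⟨p1, p2, p3⟩ := psi_low hM hy0
  have hl := mem_dbL'.1 hy0
  have hp := mem_dbU'.1 p1
  obtain ⟨x, hx⟩ : (uc y).Nonempty := by
    rw [← card_pos]
    omega
  have hxl := lev_uc H hx
  have h1 : y ∈ C → psi y ∈ C := by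
    intro h
    refine hC.up (hC.up h (mem_uc.1 hx)) ?_
    rw [← mem_dc, p2]
    exact hx
  have h2 : psi y ∈ C → y ∈ C := by
    intro h
    refine hC.dn (hC.dn (x := x) h (by omega) ?_) (by omega) (mem_uc.1 hx)
    rw [← mem_dc, p2]
    exact hx
  have h3 : y ∈ C ∧ psi y ∈ C := by
    rcases (mem_SS.1 hy).2.one with h | h
    · have h4 : y ∈ C := by
        by_contra h5
        have := hs y h5
        omega
      exact ⟨h4, h1 h4⟩
    · have h4 : psi y ∈ C := by
        by_contra h5
        have := hs _ h5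
        omega
      exact ⟨h2 h4, h4⟩
  intro z hz
  rw [sw_ne e (by rintro rfl; exact hz h3.1) (by rintro rfl; exact hz h3.2)]
  exact hs z hz

omit hM H in
lemma mem_pa {C : Finset P} {n : ℕ} : e ∈ C.piAntidiag n ↔ ∑ x, e x = n ∧ Spt C e := by
  rw [mem_piAntidiag]
  constructor
  · rintro ⟨h1, h2⟩
    have h3 : Spt C e := by
      intro x hx
      by_contra h
      exact hx (h2 x h)
    refine ⟨?_, h3⟩
    rw [← h1]
    symm
    exact Finset.sum_subset (subset_univ _) fun x _ hx => h3 x hx
  · rintro ⟨h1, h2⟩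
    constructor
    · rw [← h1]
      exact Finset.sum_subset (subset_univ _) fun x _ hx => h2 x hx
    · intro x hx
      by_contra h
      exact hx (h2 x h)

open Classical in
/-- WEIGHT BOUND for a part and a class of configurations which is closed under the swaps -/
theorem wt_bound (hir : i ≤ r) (hg : ∀ m, i ≤ m + 1 → m ≤ i + 1 → Good P m) {C : Finset P}
    (hC : Part (i + 1) C) (Q : (P → ℕ) → Prop)
    (hQ : ∀ e : P → ℕ, Q e → ∀ y ∈ SS i psi e, Q (sw psi y e)) {δ : ℕ}
    (hδ : δ = 0 ∨ δ = 1 ∧ ∀ e : P → ℕ, Q e →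
      ∃ z : P, (i + 3 ≤ lev z ∨ lev z + 3 ≤ i) ∧ 1 ≤ e z) (n : ℕ) :
    dd ^ ((st i C).card - (n - δ) / 2) ∣ ∑ e ∈ (C.piAntidiag n).filter Q, tC i C e := by
  have hC' : Part i C := ⟨fun h1 h2 => hC.up h1 h2, fun h1 h2 h3 => hC.dn h1 (by omega) h3⟩
  refine class_dvd hM H ?_ ?_
  · intro e he y hy
    rw [mem_filter, mem_pa] at he ⊢
    exact ⟨⟨by rw [sum_sw]; exact he.1.1, spt_sw hM H hC he.1.2 hy⟩, hQ e he.2 y hy⟩
  · intro e he
    rw [mem_filter, mem_pa] at he
    unfold tC
    by_cases hd : Disjoint (AL i e) (AU i e)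
    · rw [if_pos hd]
      unfold cw
      by_cases hA : AdmL i e ∧ AdmU i e
      · rw [if_pos hA]
        have hδ' : δ = 0 ∨ δ = 1 ∧ ∃ z : P, (i + 3 ≤ lev z ∨ lev z + 3 ≤ i) ∧ 1 ≤ e z := by
          rcases hδ with h | ⟨h, h2⟩
          · exact Or.inl h
          · exact Or.inr ⟨h, h2 e he.2⟩
        have h1 := main_ineq hM H hir hg hA.1 hA.2 hd hδ'
        rw [he.1.1] at h1
        have h2 := card_le_st H hC' he.1.2 hd
        have h3 : xx ^ aL i e * xi ^ (aU i e + pU i e) * dd ^ (pL i e + pU i e) *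
            (xx ^ (AL i e).card * dd ^ ((st i C).card - (AL i e).card - (AU i e).card)) *
            dd ^ (SS i psi e).card =
            (xx ^ aL i e * xi ^ (aU i e + pU i e) * xx ^ (AL i e).card) *
              dd ^ ((pL i e + pU i e) + ((st i C).card - (AL i e).card - (AU i e).card) +
                (SS i psi e).card) := by
          ring
        rw [h3]
        refine Dvd.dvd.mul_left (pow_dvd_pow _ ?_) _
        omega
      · rw [if_neg hA, zero_mul, zero_mul]
        exact dvd_zero _
    · rw [if_neg hd, zero_mul]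
      exact dvd_zero _

end wt

end Pool.Agent.GaussPoset.Win.I2
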