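import Pool.Agent.W_448i2_h61.IF

/-!
(I2) for Gaussian posets (MP_448cb3_co), row 431: initial forms (weight 1 for the energy, weight 2
for `dd`) and the individual identities of slope at most two.
-/

namespace Pool.Agent.GaussPoset.Win.I2

set_option linter.unusedSectionVars false

open Finset

universe u

/-- weight at least `2 b` -/
def Wt (b : ℕ) (f : PowerSeries A) : Prop := ∀ n, dd ^ (b - n / 2) ∣ PowerSeries.coeff n f

/-- the part of weight `2 b` -/
noncomputable def ini (b : ℕ) (f : PowerSeries A) : Polynomial ℤ :=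
  ∑ k ∈ Finset.range (b + 1),
    Polynomial.monomial k (PowerSeries.coeff (b - k) (PowerSeries.coeff (2 * k) f : A))

lemma coeff_ini (b : ℕ) (f : PowerSeries A) (k : ℕ) : (ini b f).coeff k =
    if k ≤ b then PowerSeries.coeff (b - k) (PowerSeries.coeff (2 * k) f : A) else 0 := by
  unfold ini
  rw [Polynomial.finsetSum_coeff]
  simp only [Polynomial.coeff_monomial]
  rw [Finset.sum_ite_eq']
  simp only [Finset.mem_range]
  by_cases h : k ≤ b
  · rw [if_pos (by omega), if_pos h]
  · rw [if_neg (by omega), if_neg h]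

lemma coeff_zero_of_dvd {a k : ℕ} {F : A} (h : dd ^ a ∣ F) (hk : k < a) :
    PowerSeries.coeff k F = 0 := by
  obtain ⟨F', rfl⟩ := h
  unfold dd
  rw [PowerSeries.coeff_X_pow_mul', if_neg (by omega)]

lemma coeff_low {a b : ℕ} {F G : A} (hF : dd ^ a ∣ F) (hG : dd ^ b ∣ G) :
    PowerSeries.coeff (a + b) (F * G) = PowerSeries.coeff a F * PowerSeries.coeff b G := by
  obtain ⟨F', rfl⟩ := hF
  obtain ⟨G', rfl⟩ := hG
  have h1 : dd ^ a * F' * (dd ^ b * G') = PowerSeries.X ^ (a + b) * (F' * G') := by
    unfold dd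
    rw [pow_add]
    ring
  rw [h1]
  unfold dd
  rw [PowerSeries.coeff_X_pow_mul', if_pos le_rfl, PowerSeries.coeff_X_pow_mul', if_pos le_rfl,
    PowerSeries.coeff_X_pow_mul', if_pos le_rfl, Nat.sub_self, Nat.sub_self, Nat.sub_self]
  simp

lemma dvd_of_coeff {a : ℕ} {F : A} (h : ∀ k, k < a → PowerSeries.coeff k F = 0) :
    dd ^ a ∣ F := by
  unfold dd
  rw [PowerSeries.X_pow_dvd_iff]
  exact h

lemma Wt.mul {b c : ℕ} {f g : PowerSeries A} (hf : Wt b f) (hg : Wt c g) : Wt (b + c) (f * g) := by
  intro n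
  rw [PowerSeries.coeff_mul]
  refine Finset.dvd_sum fun p hp => ?_
  rw [HasAntidiagonal.mem_antidiagonal] at hp
  refine (pow_dvd_pow dd (m := b + c - n / 2) (n := (b - p.1 / 2) + (c - p.2 / 2)) (by omega)).trans
    ?_
  rw [pow_add]
  exact mul_dvd_mul (hf p.1) (hg p.2)

lemma ini_mul {b c : ℕ} {f g : PowerSeries A} (hf : Wt b f) (hg : Wt c g) :
    ini (b + c) (f * g) = ini b f * ini c g := by
  ext k
  rw [coeff_ini, Polynomial.coeff_mul]
  simp only [coeff_ini]
  by_cases hk : k ≤ b + c
  · rw [if_pos hk, PowerSeries.coeff_mul, map_sum]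
    symm
    refine Finset.sum_of_injOn (fun p : ℕ × ℕ => (2 * p.1, 2 * p.2)) ?_ ?_ ?_ ?_
    · intro p _ q _ h
      simp only [Prod.mk.injEq] at h
      ext <;> omega
    · intro p hp
      rw [mem_coe, HasAntidiagonal.mem_antidiagonal] at hp ⊢
      simp only
      omega
    · intro p hp hne
      rw [HasAntidiagonal.mem_antidiagonal] at hp
      have hodd : p.1 % 2 = 1 ∧ p.2 % 2 = 1 := by
        by_contra h
        apply hne
        refine ⟨(p.1 / 2, p.2 / 2), ?_, ?_⟩
        · rw [mem_coe, HasAntidiagonal.mem_antidiagonal]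
          simp only
          omega
        · ext <;> simp only <;> omega
      apply coeff_zero_of_dvd (a := (b - p.1 / 2) + (c - p.2 / 2))
      · rw [pow_add]
        exact mul_dvd_mul (hf p.1) (hg p.2)
      · omega
    · intro p hp
      rw [HasAntidiagonal.mem_antidiagonal] at hp
      have h1 := hf (2 * p.1)
      have h2 := hg (2 * p.2)
      rw [Nat.mul_div_cancel_left _ (by norm_num)] at h1 h2
      by_cases h3 : p.1 ≤ b
      · by_cases h4 : p.2 ≤ c
        · rw [if_pos h3, if_pos h4, ← coeff_low h1 h2]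
          congr 2
          omega
        · rw [if_neg h4, mul_zero]
          symm
          apply coeff_zero_of_dvd (a := b - p.1)
          · exact Dvd.dvd.mul_right h1 _
          · omega
      · rw [if_neg h3, zero_mul]
        symm
        apply coeff_zero_of_dvd (a := c - p.2)
        · exact Dvd.dvd.mul_left h2 _
        · omega
  · rw [if_neg hk]
    symm
    refine Finset.sum_eq_zero fun p hp => ?_
    rw [HasAntidiagonal.mem_antidiagonal] at hp
    by_cases h3 : p.1 ≤ b
    · rw [if_neg (c := p.2 ≤ c) (by omega), mul_zero]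
    · rw [if_neg h3, zero_mul]

lemma Wt.one : Wt 0 (1 : PowerSeries A) := by
  intro n
  rw [Nat.zero_sub, pow_zero]
  exact one_dvd _

lemma ini_one : ini 0 (1 : PowerSeries A) = 1 := by
  unfold ini
  simp

lemma prod_wt {ι : Type*} [DecidableEq ι] (s : Finset ι) (b : ι → ℕ) (f : ι → PowerSeries A)
    (h : ∀ a ∈ s, Wt (b a) (f a)) :
    Wt (∑ a ∈ s, b a) (∏ a ∈ s, f a) ∧
      ini (∑ a ∈ s, b a) (∏ a ∈ s, f a) = ∏ a ∈ s, ini (b a) (f a) := by
  induction s using Finset.induction_on with
  | empty => simpa using ⟨Wt.one, ini_one⟩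
  | insert a s ha ih =>
    have h1 := ih fun x hx => h x (mem_insert_of_mem hx)
    have h2 := h a (mem_insert_self _ _)
    rw [Finset.sum_insert ha, Finset.prod_insert ha, Finset.prod_insert ha]
    refine ⟨h2.mul h1.1, ?_⟩
    rw [ini_mul h2 h1.1, h1.2]

variable {P : Type u} [Fintype P] [PartialOrder P] [DecidableEq P] {r i l : ℕ}

variable {ι : Type*} [DecidableEq ι] {κ : P → ι}

/-- the window series of an extended component has weight at least twice the number of its sites -/
theorem wt_cext (H : Gr P r) (hir : i ≤ r) (hil : i + 1 ≤ l)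
    (hg : ∀ m, i ≤ m + 1 → m ≤ i + 1 → Good P m) (hκ : Split l κ) (a : ι) :
    Wt (st i (cext l κ a)).card (ZS i (cext l κ a)) := by
  classical
  obtain ⟨psi, hM⟩ := good_mat H (hg i (by omega) (by omega))
  intro n
  have h1 := wt_bound hM H hir hg (part_cext H hil hκ a) (fun _ => True) (fun _ _ _ _ => trivial)
    (δ := 0) (Or.inl rfl) n
  rw [coeff_ZS]
  unfold ZC
  simpa using h1

/-- the configurations which excite an element outside the extended components -/
theorem wt_rest (H : Gr P r) (hir : i ≤ r) (hil : i + 2 ≤ l)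
    (hg : ∀ m, i ≤ m + 1 → m ≤ i + 1 → Good P m) (hκ : Split l κ) (n : ℕ) :
    dd ^ ((lv P i).card - (n - 1) / 2) ∣ ∑ e ∈ (univ : Finset P).piAntidiag n, trm i e -
      PowerSeries.coeff n (∏ a ∈ univ.image κ, ZS i (cext l κ a)) := by
  classical
  obtain ⟨psi, hM⟩ := good_mat H (hg i (by omega) (by omega))
  have hP : Part (i + 1) (univ : Finset P) := ⟨fun _ _ => mem_univ _, fun _ _ _ => mem_univ _⟩
  have hu : st i (univ : Finset P) = lv P i := by
    ext v
    rw [mem_st, mem_lv]
    simp
  have h1 := wt_bound hM H hir hg hP (fun e => ∃ z, z ∉ cuni l κ ∧ 1 ≤ e z) (by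
    rintro e ⟨z, hz, hze⟩ y hy
    refine ⟨z, hz, ?_⟩
    have hy0 := (mem_SS.1 hy).1
    have l1 := mem_dbL'.1 hy0
    have l2 := mem_dbU'.1 (psi_low hM hy0).1
    rw [sw_ne e (by
      rintro rfl
      exact hz (le_mem_cuni hκ (by omega))) (by
      rintro rfl
      exact hz (le_mem_cuni hκ (by omega)))]
    exact hze) (δ := 1) (Or.inr ⟨rfl, by
      rintro e ⟨z, hz, hze⟩
      have := (two_up H hκ hz).1
      exact ⟨z, Or.inl (by omega), hze⟩⟩) n
  rw [hu] at h1
  convert h1 using 1
  rw [← ZS_cuni H hir (by omega) hκ, coeff_ZS, sub_eq_iff_eq_add]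
  rw [← Finset.sum_filter_add_sum_filter_not ((univ : Finset P).piAntidiag n)
    (fun e => ∃ z, z ∉ cuni l κ ∧ 1 ≤ e z)]
  congr 1
  · refine Finset.sum_congr ?_ fun e _ => ?_
    · ext e
      simp only [mem_filter]
    · unfold tC trm
      rw [hu]
  · unfold ZC
    have h2 : ((univ : Finset P).piAntidiag n).filter (fun e => ¬ ∃ z, z ∉ cuni l κ ∧ 1 ≤ e z) =
        (cuni l κ).piAntidiag n := by
      ext e
      rw [mem_filter, mem_pa, mem_pa]
      constructor
      · rintro ⟨⟨h3, -⟩, h4⟩
        refine ⟨h3, fun x hx => ?_⟩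
        by_contra h5
        exact h4 ⟨x, hx, by omega⟩
      · rintro ⟨h3, h4⟩
        refine ⟨⟨h3, fun x hx => absurd (mem_univ x) hx⟩, ?_⟩
        rintro ⟨z, hz, hze⟩
        have := h4 z hz
        omega
    rw [h2]
    refine Finset.sum_congr rfl fun e _ => ?_
    unfold tC trm
    rw [st_cuni (by omega) hκ]

/-- the initial form of the product of the window series of the components is trivial -/
theorem ini_prod (H : Gr P r) (hir : i ≤ r) (hil : i + 2 ≤ l)
    (hg : ∀ m, i ≤ m + 1 → m ≤ i + 1 → Good P m) (hκ : Split l κ) :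
    ini (lv P i).card (∏ a ∈ univ.image κ, ZS i (cext l κ a)) = 1 := by
  classical
  ext k
  rw [coeff_ini, Polynomial.coeff_one]
  rcases Nat.eq_zero_or_pos k with rfl | hk
  · rw [if_pos (Nat.zero_le _), if_pos rfl, Nat.sub_zero, Nat.mul_zero]
    rw [← ZS_cuni H hir (by omega) hκ, coeff_ZS, ZC_zero H hir, st_cuni (by omega) hκ]
    unfold dd
    rw [PowerSeries.coeff_X_pow, if_pos rfl]
  · have h0 : ¬ k = 0 := by omega
    simp only [h0, if_false]
    split_ifs with h
    · have h1 := wt_rest H hir hil hg hκ (2 * k)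
      have h2 := dvd_sum_trm H hir (2 * k)
      have h3 : PowerSeries.coeff ((lv P i).card - k)
          (∑ e ∈ (univ : Finset P).piAntidiag (2 * k), trm i e) = 0 :=
        coeff_zero_of_dvd h2 (by omega)
      have h4 := coeff_zero_of_dvd h1 (k := (lv P i).card - k) (by omega)
      rw [map_sub, h3, zero_sub, neg_eq_zero] at h4
      exact h4
    · rfl

/-- (I2): at every window `i ≤ j - 2` (levels `i-1, i, i+1` good, `P_(≤ l)` split into components,
`l ≥ i + 2`) every component satisfies all the identities of slope at most two: for `n ≥ 1` the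
coefficient of `q^n` of its window series has no term `dd ^ (b - k)` with `2 k ≥ n`. -/
theorem indiv_two (H : Gr P r) (hir : i ≤ r) (hil : i + 2 ≤ l)
    (hg : ∀ m, i ≤ m + 1 → m ≤ i + 1 → Good P m) (hκ : Split l κ) {a : ι}
    (ha : a ∈ univ.image κ) {n : ℕ} (hn : 1 ≤ n) :
    dd ^ ((st i (cext l κ a)).card + 1 - (n + 1) / 2) ∣ ZC i (cext l κ a) n := by
  classical
  have hw := wt_cext H hir (by omega) hg hκ (l := l)
  have h1 := (prod_wt (univ.image κ) (fun a => (st i (cext l κ a)).card)
    (fun a => ZS i (cext l κ a)) (fun a _ => hw a)).2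
  rw [sum_card_st (by omega) hκ, ini_prod H hir hil hg hκ] at h1
  have h2 : IsUnit (ini (st i (cext l κ a)).card (ZS i (cext l κ a))) := by
    refine isUnit_of_dvd_one ?_
    rw [h1]
    exact Finset.dvd_prod_of_mem (fun a => ini (st i (cext l κ a)).card (ZS i (cext l κ a))) ha
  have h3 := Polynomial.natDegree_eq_zero_of_isUnit h2
  set b := (st i (cext l κ a)).card with hb
  have h4 := hw a n
  rw [coeff_ZS] at h4
  rcases Nat.even_or_odd' n with ⟨k, rfl | rfl⟩
  · rw [Nat.mul_div_cancel_left _ (by norm_num)] at h4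
    have h5 : b + 1 - (2 * k + 1) / 2 = b + 1 - k := by omega
    rw [h5]
    by_cases hkb : k ≤ b
    · apply dvd_of_coeff
      intro m hm
      rcases Nat.lt_or_ge m (b - k) with h6 | h6
      · exact coeff_zero_of_dvd h4 h6
      · have h7 : m = b - k := by omega
        have h8 := coeff_ini b (ZS i (cext l κ a)) k
        rw [if_pos hkb, coeff_ZS, Polynomial.coeff_eq_zero_of_natDegree_lt (by omega)] at h8
        rw [h7]
        exact h8.symm
    · have h6 : b + 1 - k = 0 := by omega
      rw [h6, pow_zero]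
      exact one_dvd _
  · have h5 : b + 1 - (2 * k + 1 + 1) / 2 = b - (2 * k + 1) / 2 := by omega
    rw [h5]
    exact h4

end Pool.Agent.GaussPoset.Win.I2
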